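import Mathlib

/-!
# LGO, geometry: function fields of one variable through their valuation rings

`k` is a field (later algebraically closed), `L` an extension in which any two elements are
algebraically dependent over `k` (`Dep k L`).  Places are valuation subrings of `L` containing `k`.
-/

namespace Pool.Agent.LGO

open Polynomial

/-- the valuation ring contains the constants -/
def Over (k : Type) {L : Type} [Field k] [Field L] [Algebra k L] (O : ValuationSubring L) : Prop :=
  ∀ c : k, algebraMap k L c ∈ O

/-- the value `∑ p_i(t) x^i` of the polynomial `P = ∑ p_i X^i`, `p_i ∈ k[T]` -/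
noncomputable def ev2 {k L : Type} [Field k] [Field L] [Algebra k L] (t x : L) (P : k[X][X]) : L :=
  P.eval₂ (aeval t : k[X] →ₐ[k] L).toRingHom x

/-- transcendence degree at most one -/
def Dep (k L : Type) [Field k] [Field L] [Algebra k L] : Prop :=
  ∀ t x : L, ∃ P : k[X][X], P ≠ 0 ∧ ev2 t x P = 0

/-- the places where `t` has a pole -/
def Inf (k : Type) {L : Type} [Field k] [Field L] [Algebra k L] (t : L) :
    Set (ValuationSubring L) := {O | Over k O ∧ t ∉ O}

/-- the elements `x` such that `x t ^ m` is regular at all poles of `t` -/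
def BB (k : Type) {L : Type} [Field k] [Field L] [Algebra k L] (t : L) (m : ℕ) :
    Submodule k L where
  carrier := {x | ∀ O ∈ Inf k t, x * t ^ m ∈ O}
  add_mem' := by
    intro a b ha hb O hO
    rw [add_mul]
    exact O.add_mem _ _ (ha O hO) (hb O hO)
  zero_mem' := by
    intro O _
    rw [zero_mul]
    exact O.zero_mem
  smul_mem' := by
    intro c x hx O hO
    rw [Algebra.smul_def, mul_assoc]
    exact O.mul_mem _ _ (hO.1 c) (hx O hO)

/-- `A` is a ring of functions which is integral over `k[t]`, `t ∈ A` is transcendental, and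
`b_1, ..., b_δ ∈ A` is a basis of `L` over `k(t)` -/
structure Setup (k : Type) {L : Type} [Field k] [Field L] [Algebra k L] (A : Subalgebra k L)
    (t : L) (δ : ℕ) (b : Fin δ → L) : Prop where
  trans : Transcendental k t
  tA : t ∈ A
  bA : ∀ i, b i ∈ A
  int : ∀ x ∈ A, ∀ O : ValuationSubring L, Over k O → t ∈ O → x ∈ O
  indep : ∀ p : Fin δ → k[X], ∑ i, aeval t (p i) * b i = 0 → p = 0
  span : ∀ x : L, ∃ (q : k[X]) (p : Fin δ → k[X]), q ≠ 0 ∧
    aeval t q * x = ∑ i, aeval t (p i) * b i

/-- certificate: `W` is integral over the ring of the `p(F) / q(F)` with `deg p ≤ deg q` -/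
def Cert (k : Type) {L : Type} [Field k] [Field L] [Algebra k L] (F W : L) : Prop :=
  ∃ (r : ℕ) (q : k[X]) (p : ℕ → k[X]), q ≠ 0 ∧ (∀ i, (p i).natDegree ≤ q.natDegree) ∧
    aeval F q * W ^ r + ∑ i ∈ Finset.range r, aeval F (p i) * W ^ i = 0

end Pool.Agent.LGO
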