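import Mathlib
import Pool.Agent.LGO.G.Defs
import Pool.Agent.ZPB.BFun

/-!
# LGO, geometry, module G11: the function field over the algebraic numbers

`exists_funQ`.  Let `K, π` be as in `ZPB.exists_fun` (`hV.isIrred`, `hdim`), `ψ a = π (X (i a)) ∈ K`, and
`L = IntermediateField.adjoin Qb {ψ 0, ψ 1, ψ 2}` (a subfield of `K`; `K` is a `Qb`-algebra through `ℂ`:
`Algebra.compHom` or `((algebraMap ℂ K).comp (algebraMap Qb ℂ)).toAlgebra`; any construction of `L` is
fine, for instance the fraction field of `MvPolynomial (Fin 3) Qb ⧸ I`, `I` the prime ideal of the `G`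
with `aeval (x ∘ i) G = 0` for all `x ∈ V`; it is prime because `V` is irreducible).
* zero: `aeval ψ G = 0` iff `G(x ∘ i) = 0` for all `x ∈ V` (`exists_fun` for `rename i (map .. G)`).
* `Dep`: let `t, x ∈ L`, `t = N / D`, `x = N' / D'`.  `IsCF.dep` gives a relation with coefficients in
  `ℂ`: a nonzero `P ∈ ℂ[T, X]` with `P(t, x) = 0`; clear denominators: a polynomial identity on `V` which
  is linear in the coefficients of `P`.  Write the coefficients of `P` in a basis of `ℂ` over `Qb`
  (`exists_decomp` in `Pool/Agent/Hhelper14/ZPL/KClosed.lean`) and use `split_relation`: all the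
  components satisfy the relation, and at least one of them is nonzero.
* fin: `{x ∈ V | G(x ∘ i) = 0}` is finite if `aeval ψ G ≠ 0` (third part of `exists_fun`).
-/

namespace Pool.Agent.LGO

open MvPolynomial Pool.Agent.Hhelper14.ZPL

/-- polynomials in two variables as polynomials with polynomial coefficients -/
private theorem FunF_two {k L : Type} [Field k] [Field L] [Algebra k L] {g : MvPolynomial (Fin 2) k}
    (hg : g ≠ 0) (t x : L) (h : aeval ![t, x] g = 0) :
    ∃ P : Polynomial (Polynomial k), P ≠ 0 ∧ ev2 t x P = 0 := by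
  let e : MvPolynomial (Fin 2) k →ₐ[k] Polynomial (Polynomial k) :=
    aeval ![Polynomial.C Polynomial.X, Polynomial.X]
  refine ⟨e g, ?_, ?_⟩
  · intro h0
    let f : Polynomial (Polynomial k) →+* MvPolynomial (Fin 2) k :=
      Polynomial.eval₂RingHom
        ((Polynomial.aeval (X 0 : MvPolynomial (Fin 2) k)) : Polynomial k →ₐ[k] _).toRingHom (X 1)
    have h1 : ∀ p : MvPolynomial (Fin 2) k, f (e p) = p := by
      intro p
      induction p using MvPolynomial.induction_on with
      | C r =>
        have : e (C r) = Polynomial.C (Polynomial.C r) := by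
          rw [show (C r : MvPolynomial (Fin 2) k) = algebraMap k _ r from rfl, AlgHom.commutes]
          rfl
        rw [this]
        simp [f]
      | add p q hp hq => rw [map_add, map_add, hp, hq]
      | mul_X p i hp =>
        rw [map_mul, map_mul, hp]
        congr 1
        fin_cases i
        · simp [e, f]
        · simp [e, f]
    apply hg
    rw [← h1 g, h0, map_zero]
  · have h2 : ∀ p : MvPolynomial (Fin 2) k, ev2 t x (e p) = aeval ![t, x] p := by
      intro p
      induction p using MvPolynomial.induction_on with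
      | C r =>
        have : e (C r) = Polynomial.C (Polynomial.C r) := by
          rw [show (C r : MvPolynomial (Fin 2) k) = algebraMap k _ r from rfl, AlgHom.commutes]
          rfl
        rw [this]
        simp [ev2]
      | add p q hp hq =>
        rw [map_add, map_add, ← hp, ← hq]
        simp only [ev2, Polynomial.eval₂_add]
      | mul_X p i hp =>
        rw [map_mul, map_mul, ← hp]
        have h3 : ev2 t x (e p * e (X i)) = ev2 t x (e p) * ev2 t x (e (X i)) := by
          simp only [ev2, Polynomial.eval₂_mul]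
        rw [h3]
        congr 1
        fin_cases i
        · simp [e, ev2]
        · simp [e, ev2]
    rw [h2, h]

theorem exists_funQ {n : ℕ} {V : Set (Fin n → ℂ)} (hV : Pool.Agent.Hhelper14.ZPL.IsIrredClosed V)
    (hVk : KClosed V) (hdim : Pool.Agent.Hhelper14.ZPL.dim V = 1) (i : Fin 3 → Fin n) :
    ∃ (L : Type) (_ : Field L) (_ : Algebra Qb L) (ψ : Fin 3 → L),
      IntermediateField.adjoin Qb (Set.range ψ) = ⊤ ∧ Dep Qb L ∧
      (∀ G : MvPolynomial (Fin 3) Qb, aeval ψ G = 0 ↔ ∀ x ∈ V, (aeval (x ∘ i) G : ℂ) = 0) ∧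
      ∀ G : MvPolynomial (Fin 3) Qb, aeval ψ G ≠ 0 →
        {x ∈ V | (aeval (x ∘ i) G : ℂ) = 0}.Finite := by
  classical
  obtain ⟨K, hK, hKC, π, hCF, hπ0, hπf⟩ := Pool.Agent.ZPB.exists_fun hV hdim
  have hPr : (vanishingIdeal Qb V : Ideal (MvPolynomial (Fin n) Qb)).IsPrime := kprime_of_prime hV.1
  let I : Ideal (MvPolynomial (Fin 3) Qb) :=
    (vanishingIdeal Qb V : Ideal (MvPolynomial (Fin n) Qb)).comap
      (rename i : MvPolynomial (Fin 3) Qb →ₐ[Qb] MvPolynomial (Fin n) Qb)
  have hI : I.IsPrime := Ideal.IsPrime.comap _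
  have hmemI : ∀ G, G ∈ I ↔ ∀ x ∈ V, (aeval (x ∘ i) G : ℂ) = 0 := by
    intro G
    rw [Ideal.mem_comap, mem_vanishingIdeal_iff]
    refine forall₂_congr fun x _ => ?_
    rw [aeval_rename]
  let R : Type := MvPolynomial (Fin 3) Qb ⧸ I
  let _ : CommRing R := Ideal.Quotient.commRing I
  have _ : IsDomain R := Ideal.Quotient.isDomain I
  let _ : Algebra Qb R := Ideal.Quotient.algebra Qb
  let L : Type := FractionRing R
  let ψ : Fin 3 → L := fun a => algebraMap R L (Ideal.Quotient.mk I (X a))
  let Ψ : MvPolynomial (Fin 3) Qb →ₐ[Qb] L :=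
    (IsScalarTower.toAlgHom Qb R L).comp (Ideal.Quotient.mkₐ Qb I)
  have hΨ : ∀ G, Ψ G = algebraMap R L (Ideal.Quotient.mk I G) := fun G => rfl
  have haev : ∀ G, aeval ψ G = Ψ G := by
    intro G
    have h1 : (aeval ψ : MvPolynomial (Fin 3) Qb →ₐ[Qb] L) = Ψ := by
      apply MvPolynomial.algHom_ext
      intro a
      rw [aeval_X]
      rfl
    rw [h1]
  have hinj : Function.Injective (algebraMap R L) := IsFractionRing.injective R L
  have hzero : ∀ G, Ψ G = 0 ↔ ∀ x ∈ V, (aeval (x ∘ i) G : ℂ) = 0 := by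
    intro G
    rw [hΨ, map_eq_zero_iff _ hinj, Ideal.Quotient.eq_zero_iff_mem, hmemI]
  -- the map to `K`
  let θ : MvPolynomial (Fin 3) Qb →+* K :=
    (π : MvPolynomial (Fin n) ℂ →+* K).comp
      ((MvPolynomial.map (algebraMap Qb ℂ)).comp
        ((rename i : MvPolynomial (Fin 3) Qb →ₐ[Qb] MvPolynomial (Fin n) Qb) :
          MvPolynomial (Fin 3) Qb →+* MvPolynomial (Fin n) Qb))
  have hθ : ∀ G, θ G = π (MvPolynomial.map (algebraMap Qb ℂ) (rename i G)) := fun G => rfl
  have hev : ∀ (x : Fin n → ℂ) (G : MvPolynomial (Fin 3) Qb),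
      eval x (MvPolynomial.map (algebraMap Qb ℂ) (rename i G)) = (aeval (x ∘ i) G : ℂ) := by
    intro x G
    rw [← aeval_rename, ← aeval_map_Qb, aeval_eq_eval]
  have hθ0 : ∀ G, θ G = 0 ↔ G ∈ I := by
    intro G
    rw [hθ, hπ0, hmemI]
    refine forall₂_congr fun x _ => ?_
    rw [hev]
  let θR : R →+* K := Ideal.Quotient.lift I θ (fun a ha => (hθ0 a).mpr ha)
  have hθR : ∀ G, θR (Ideal.Quotient.mk I G) = θ G := fun G => rfl
  have hθRinj : Function.Injective θR := by
    rw [injective_iff_map_eq_zero]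
    intro a ha
    obtain ⟨G, rfl⟩ := Ideal.Quotient.mk_surjective a
    rw [hθR, hθ0] at ha
    exact Ideal.Quotient.eq_zero_iff_mem.mpr ha
  let j : L →+* K := IsFractionRing.lift hθRinj
  have hj : ∀ r : R, j (algebraMap R L r) = θR r := fun r => IsFractionRing.lift_algebraMap hθRinj r
  have hjc : ∀ c : Qb, j (algebraMap Qb L c) = algebraMap ℂ K (c : ℂ) := by
    intro c
    have h1 : algebraMap Qb L c = Ψ (C c) := (Ψ.commutes c).symm
    rw [h1, hΨ, hj, hθR, hθ]
    rw [rename_C, map_C]
    exact π.commutes (c : ℂ)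
  refine ⟨L, inferInstance, inferInstance, ψ, ?_, ?_, ?_, ?_⟩
  · rw [eq_top_iff]
    have hmem : ∀ G, Ψ G ∈ IntermediateField.adjoin Qb (Set.range ψ) := by
      intro G
      induction G using MvPolynomial.induction_on with
      | C r =>
        have h1 : Ψ (C r) = algebraMap Qb L r := Ψ.commutes r
        rw [h1]
        exact IntermediateField.algebraMap_mem _ r
      | add p q hp hq =>
        rw [map_add]
        exact add_mem hp hq
      | mul_X p a hp =>
        rw [map_mul]
        refine mul_mem hp (IntermediateField.subset_adjoin _ _ ?_)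
        exact ⟨a, rfl⟩
    intro y _
    obtain ⟨a, b, -, rfl⟩ := IsFractionRing.div_surjective (A := R) y
    obtain ⟨a, rfl⟩ := Ideal.Quotient.mk_surjective a
    obtain ⟨b, rfl⟩ := Ideal.Quotient.mk_surjective b
    exact div_mem (hmem a) (hmem b)
  · -- `Dep`
    intro t x
    obtain ⟨P, hP, hP0⟩ := hCF.dep (j t) (j x)
    obtain ⟨s, g, hg⟩ := exists_decomp P
    have hne : ∃ β ∈ s, g β ≠ 0 := by
      by_contra hcon
      push Not at hcon
      apply hP
      rw [hg]
      refine Finset.sum_eq_zero fun β hβ => ?_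
      rw [hcon β hβ, map_zero, mul_zero]
    obtain ⟨β, hβ, hgβ⟩ := hne
    refine FunF_two hgβ t x ?_
    -- the relation in `K`
    have hcomp : ∀ q : MvPolynomial (Fin 2) Qb,
        aeval ![j t, j x] (MvPolynomial.map (algebraMap Qb ℂ) q) = j (aeval ![t, x] q) := by
      intro q
      induction q using MvPolynomial.induction_on with
      | C r =>
        rw [map_C, aeval_C]
        have : aeval ![t, x] (C r : MvPolynomial (Fin 2) Qb) = algebraMap Qb L r := aeval_C _ _
        rw [this, hjc]
        rfl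
      | add p q hp hq => rw [map_add, map_add, map_add, map_add, hp, hq]
      | mul_X p a hp =>
        rw [map_mul, map_mul, map_mul, map_mul, hp, map_X, aeval_X, aeval_X]
        congr 1
        fin_cases a <;> rfl
    have hrel : ∑ γ ∈ s, algebraMap ℂ K ((Module.Basis.ofVectorSpace Qb ℂ) γ) *
        j (aeval ![t, x] (g γ)) = 0 := by
      rw [hg, map_sum] at hP0
      rw [← hP0]
      refine Finset.sum_congr rfl fun γ _ => ?_
      rw [map_mul, aeval_C, hcomp]
    -- common denominator
    obtain ⟨D, hD⟩ := IsLocalization.exist_integer_multiples (nonZeroDivisors R) s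
      (fun γ => (aeval ![t, x] (g γ) : L))
    have hDne : algebraMap R L (D : R) ≠ 0 := by
      rw [Ne, map_eq_zero_iff _ hinj]
      exact nonZeroDivisors.ne_zero D.2
    choose! N hN using fun γ (hγ : γ ∈ s) => hD γ hγ
    have hNs : ∀ γ, ∃ G, Ideal.Quotient.mk I G = N γ := fun γ => Ideal.Quotient.mk_surjective (N γ)
    choose G hG using hNs
    have hN' : ∀ γ ∈ s, algebraMap R L (Ideal.Quotient.mk I (G γ)) =
        algebraMap R L (D : R) * aeval ![t, x] (g γ) := by
      intro γ hγ
      rw [hG, hN γ hγ]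
      exact Algebra.smul_def _ _
    have hrel2 : ∀ y ∈ V, ∑ γ ∈ s, (Module.Basis.ofVectorSpace Qb ℂ) γ *
        (aeval y (rename i (G γ)) : ℂ) = 0 := by
      have h1 : π (∑ γ ∈ s, C ((Module.Basis.ofVectorSpace Qb ℂ) γ) *
          MvPolynomial.map (algebraMap Qb ℂ) (rename i (G γ))) = 0 := by
        rw [map_sum]
        have h2 : j (algebraMap R L (D : R)) * ∑ γ ∈ s,
            algebraMap ℂ K ((Module.Basis.ofVectorSpace Qb ℂ) γ) * j (aeval ![t, x] (g γ)) = 0 := by
          rw [hrel, mul_zero]
        rw [← h2, Finset.mul_sum]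
        refine Finset.sum_congr rfl fun γ hγ => ?_
        have h3 : π (C ((Module.Basis.ofVectorSpace Qb ℂ) γ)) =
            algebraMap ℂ K ((Module.Basis.ofVectorSpace Qb ℂ) γ) := π.commutes _
        rw [map_mul, h3, ← hθ, ← hθR, ← hj, hN' γ hγ, map_mul]
        ring
      intro y hy
      have h4 := (hπ0 _).mp h1 y hy
      rw [map_sum] at h4
      rw [← h4]
      refine Finset.sum_congr rfl fun γ _ => ?_
      rw [map_mul, eval_C, hev, aeval_rename]
    have h5 := split_relation hVk s (fun γ => rename i (G γ)) hrel2 β hβ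
    have h6 : G β ∈ I := h5
    have h7 : algebraMap R L (D : R) * aeval ![t, x] (g β) = 0 := by
      rw [← hN' β hβ, Ideal.Quotient.eq_zero_iff_mem.mpr h6, map_zero]
    exact (mul_eq_zero.mp h7).resolve_left hDne
  · intro G
    rw [haev, hzero]
  · intro G hG
    rw [haev, hΨ, Ne, map_eq_zero_iff _ hinj, Ideal.Quotient.eq_zero_iff_mem, ← hθ0, hθ] at hG
    have h1 := hπf _ hG
    simpa only [hev] using h1

end Pool.Agent.LGO
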