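import Mathlib
import Pool.Agent.LGO.G.Defs
import Pool.Agent.Hhelper14.ZPL.KClosed

/-!
# LGO, geometry, module G10: inequalities from certificates, for all conjugates

`Cert`: `q(F) W^r + ∑_{i < r} p_i(F) W^i = 0` in `L`, `W = F (N / D)^m`.  Multiply by `D^(m r)`: the polynomial
`G = q(F) (F N^m)^r + ∑_{i < r} p_i(F) (F N^m)^i D^(m (r - i))` (`Polynomial.aeval F q` in
`MvPolynomial (Fin 3) Qb`) has `aeval ψ G = 0`, so `G(y) = 0`.  Apply `σ`: with `f = σ(F(y))`, `n = σ(N(y))`,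
`d = σ(D(y))`, `W = f n^m`, `E = d^m`, and `q^σ`, `p_i^σ` the polynomials with the coefficients moved by
`σ`: `q^σ(f) W^r + ∑ p_i^σ(f) W^i E^(r-i) = 0`.
The conjugates `σ(α)` of an algebraic number `α` form a finite set (roots of `minpoly ℚ α`), so there are
`c > 0`, `B` with `|σ(lead q)| ≥ c` and all `|σ(coefficient)| ≤ B` for all `σ`.  So for `|f| ≥ C1`:
`|q^σ(f)| ≥ (c/2) |f|^(deg q)`, `|p_i^σ(f)| ≤ B' |f|^(deg q)` and `|W|^r ≤ B'' ∑_{i<r} |W|^i |E|^(r-i)`.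
(`r = 0` is impossible.)  If `|W| > |E|` then the right side is `≤ B'' r |W|^(r-1) |E|`.  So
`|W| ≤ (1 + B'' r) |E|`.
-/

namespace Pool.Agent.LGO

open MvPolynomial Pool.Agent.Hhelper14.ZPL

/-- the conjugates of an algebraic number are bounded -/
theorem conj_bdd (α : Qb) : ∃ B : ℝ, ∀ σ : ℂ ≃+* ℂ, ‖σ (α : ℂ)‖ ≤ B := by
  classical
  have halg : IsAlgebraic ℚ (α : ℂ) := mem_algebraicClosure_iff.1 α.2
  have hint : IsIntegral ℚ (α : ℂ) := halg.isIntegral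
  set P := minpoly ℚ (α : ℂ) with hP
  have hP0 : P ≠ 0 := minpoly.ne_zero hint
  refine ⟨∑ z ∈ (P.aroots ℂ).toFinset, ‖z‖, fun σ => ?_⟩
  have hmem : σ (α : ℂ) ∈ (P.aroots ℂ).toFinset := by
    rw [Multiset.mem_toFinset, Polynomial.mem_aroots]
    refine ⟨hP0, ?_⟩
    have h1 := Polynomial.aeval_algHom_apply (RingHom.toRatAlgHom (σ : ℂ →+* ℂ)) (α : ℂ) P
    rw [minpoly.aeval, map_zero] at h1
    exact h1
  exact Finset.single_le_sum (f := fun z : ℂ => ‖z‖) (fun z _ => norm_nonneg z) hmem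

/-- the conjugates of a nonzero algebraic number are bounded away from zero -/
theorem conj_bdd_below {α : Qb} (hα : α ≠ 0) :
    ∃ c : ℝ, 0 < c ∧ ∀ σ : ℂ ≃+* ℂ, c ≤ ‖σ (α : ℂ)‖ := by
  obtain ⟨B, hB⟩ := conj_bdd α⁻¹
  have hB1 : 0 < |B| + 1 := by positivity
  refine ⟨1 / (|B| + 1), by positivity, fun σ => ?_⟩
  have hα' : (α : ℂ) ≠ 0 := by
    intro h
    exact hα (Subtype.ext h)
  have h1 : ‖σ (α : ℂ)‖ * ‖σ ((α⁻¹ : Qb) : ℂ)‖ = 1 := by
    rw [← norm_mul, ← map_mul]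
    have : (α : ℂ) * ((α⁻¹ : Qb) : ℂ) = 1 := by
      rw [IntermediateField.coe_inv, mul_inv_cancel₀ hα']
    rw [this, map_one, norm_one]
  have h2 : ‖σ ((α⁻¹ : Qb) : ℂ)‖ ≤ |B| + 1 := (hB σ).trans (by linarith [le_abs_self B])
  rw [div_le_iff₀ hB1]
  calc (1 : ℝ) = ‖σ (α : ℂ)‖ * ‖σ ((α⁻¹ : Qb) : ℂ)‖ := h1.symm
    _ ≤ ‖σ (α : ℂ)‖ * (|B| + 1) := mul_le_mul_of_nonneg_left h2 (norm_nonneg _)

/-- the polynomial with the coefficients moved by `σ` -/
private noncomputable def pev (σ : ℂ ≃+* ℂ) (f : ℂ) (p : Polynomial Qb) : ℂ :=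
  p.eval₂ ((σ : ℂ →+* ℂ).comp (algebraMap Qb ℂ)) f

private theorem pev_eq (σ : ℂ ≃+* ℂ) (z : ℂ) (p : Polynomial Qb) :
    σ (Polynomial.aeval z p) = pev σ (σ z) p := by
  have h := Polynomial.hom_eval₂ p (algebraMap Qb ℂ) (σ : ℂ →+* ℂ) z
  exact h

private theorem pev_upper (p : Polynomial Qb) (e : ℕ) (he : p.natDegree ≤ e) :
    ∃ B : ℝ, 0 ≤ B ∧ ∀ (σ : ℂ ≃+* ℂ) (f : ℂ), 1 ≤ ‖f‖ → ‖pev σ f p‖ ≤ B * ‖f‖ ^ e := by
  choose B hB using fun i : ℕ => conj_bdd (p.coeff i)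
  refine ⟨∑ i ∈ Finset.range (p.natDegree + 1), |B i|, Finset.sum_nonneg fun i _ => abs_nonneg _,
    fun σ f hf => ?_⟩
  rw [pev, Polynomial.eval₂_eq_sum_range, Finset.sum_mul]
  refine (norm_sum_le _ _).trans (Finset.sum_le_sum fun i hi => ?_)
  rw [norm_mul, norm_pow]
  have hi' : i ≤ e := by
    rw [Finset.mem_range] at hi
    omega
  have h1 : ‖((σ : ℂ →+* ℂ).comp (algebraMap Qb ℂ)) (p.coeff i)‖ ≤ |B i| :=
    (hB i σ).trans (le_abs_self _)
  exact mul_le_mul h1 (pow_le_pow_right₀ hf hi') (by positivity) (abs_nonneg _)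

private theorem pev_lower (q : Polynomial Qb) (hq : q ≠ 0) :
    ∃ c C : ℝ, 0 < c ∧ 1 ≤ C ∧ ∀ (σ : ℂ ≃+* ℂ) (f : ℂ), C ≤ ‖f‖ →
      c * ‖f‖ ^ q.natDegree ≤ ‖pev σ f q‖ := by
  obtain ⟨c, hc, hcb⟩ := conj_bdd_below (α := q.leadingCoeff) (Polynomial.leadingCoeff_ne_zero.2 hq)
  rcases Nat.eq_zero_or_pos q.natDegree with h0 | h0
  · refine ⟨c, 1, hc, le_rfl, fun σ f _ => ?_⟩
    rw [h0, pow_zero, mul_one]
    have h1 : q = Polynomial.C q.leadingCoeff := by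
      rw [Polynomial.leadingCoeff, h0]
      exact Polynomial.eq_C_of_natDegree_eq_zero h0
    rw [h1, pev, Polynomial.eval₂_C]
    exact hcb σ
  · obtain ⟨B, hB0, hB⟩ := pev_upper q.eraseLead (q.natDegree - 1) (Polynomial.eraseLead_natDegree_le q)
    refine ⟨c / 2, 1 + 2 * B / c, by positivity, by
      have : 0 ≤ 2 * B / c := by positivity
      linarith, fun σ f hf => ?_⟩
    have hBc : 0 ≤ 2 * B / c := by positivity
    have hf1 : 1 ≤ ‖f‖ := by linarith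
    have hf2 : 2 * B / c ≤ ‖f‖ := by linarith
    have h1 : pev σ f q = pev σ f q.eraseLead + σ (q.leadingCoeff : ℂ) * f ^ q.natDegree := by
      conv_lhs => rw [pev, ← Polynomial.eraseLead_add_C_mul_X_pow q]
      rw [Polynomial.eval₂_add, Polynomial.eval₂_mul, Polynomial.eval₂_C, Polynomial.eval₂_pow,
        Polynomial.eval₂_X]
      rfl
    have h2 : c * ‖f‖ ^ q.natDegree ≤ ‖σ (q.leadingCoeff : ℂ) * f ^ q.natDegree‖ := by
      rw [norm_mul, norm_pow]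
      exact mul_le_mul_of_nonneg_right (hcb σ) (by positivity)
    have h3 : ‖pev σ f q.eraseLead‖ ≤ c / 2 * ‖f‖ ^ q.natDegree := by
      refine (hB σ f hf1).trans ?_
      obtain ⟨d, hd⟩ : ∃ d, q.natDegree = d + 1 := ⟨q.natDegree - 1, by omega⟩
      rw [hd, Nat.add_sub_cancel, pow_succ]
      have h4 : B ≤ c / 2 * ‖f‖ := by
        rw [div_le_iff₀ hc] at hf2
        linarith
      calc B * ‖f‖ ^ d ≤ (c / 2 * ‖f‖) * ‖f‖ ^ d :=
            mul_le_mul_of_nonneg_right h4 (by positivity)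
        _ = c / 2 * (‖f‖ ^ d * ‖f‖) := by ring
    have h5 : ‖σ (q.leadingCoeff : ℂ) * f ^ q.natDegree‖ ≤ ‖pev σ f q‖ + ‖pev σ f q.eraseLead‖ := by
      have : σ (q.leadingCoeff : ℂ) * f ^ q.natDegree = pev σ f q - pev σ f q.eraseLead := by
        rw [h1]
        ring
      rw [this]
      exact norm_sub_le _ _
    have h6 : c / 2 * ‖f‖ ^ q.natDegree + c / 2 * ‖f‖ ^ q.natDegree = c * ‖f‖ ^ q.natDegree := by
      ring
    linarith

/-- the final estimate -/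
private theorem final_est (r : ℕ) (Q W E c B t : ℝ) (a : ℕ → ℝ) (hc : 0 < c) (ht : 0 < t)
    (hB : 0 ≤ B) (_hW : 0 ≤ W) (hE : 0 ≤ E) (hQ : c * t ≤ Q)
    (ha : ∀ i ∈ Finset.range r, a i ≤ B * t)
    (h : Q * W ^ r ≤ ∑ i ∈ Finset.range r, a i * W ^ i * E ^ (r - i)) :
    W ≤ (1 + r * B / c) * E := by
  have hrB : 0 ≤ r * B / c := by positivity
  rcases le_or_gt W E with hWE | hWE
  · nlinarith
  have hW0 : 0 < W := lt_of_le_of_lt hE hWE
  rcases Nat.eq_zero_or_pos r with h0 | h0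
  · exfalso
    subst h0
    simp only [pow_zero, mul_one, Finset.range_zero, Finset.sum_empty] at h
    have : 0 < c * t := mul_pos hc ht
    linarith
  obtain ⟨d, rfl⟩ : ∃ d, r = d + 1 := ⟨r - 1, by omega⟩
  have h1 : ∑ i ∈ Finset.range (d + 1), a i * W ^ i * E ^ (d + 1 - i) ≤
      ∑ i ∈ Finset.range (d + 1), (B * t) * (W ^ d * E) := by
    refine Finset.sum_le_sum fun i hi => ?_
    have hid : i ≤ d := by
      rw [Finset.mem_range] at hi
      omega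
    have e1 : d + 1 - i = (d - i) + 1 := by omega
    have h2 : W ^ i * E ^ (d + 1 - i) ≤ W ^ d * E := by
      rw [e1, pow_succ]
      calc W ^ i * (E ^ (d - i) * E) ≤ W ^ i * (W ^ (d - i) * E) := by
            apply mul_le_mul_of_nonneg_left _ (by positivity)
            exact mul_le_mul_of_nonneg_right (pow_le_pow_left₀ hE hWE.le _) hE
        _ = W ^ d * E := by
            rw [← mul_assoc, ← pow_add]
            congr 2
            omega
    rw [mul_assoc]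
    exact mul_le_mul (ha i hi) h2 (by positivity) (by positivity)
  rw [Finset.sum_const, Finset.card_range, nsmul_eq_mul] at h1
  have h3 : c * t * W ^ (d + 1) ≤ Q * W ^ (d + 1) :=
    mul_le_mul_of_nonneg_right hQ (by positivity)
  have h4 : (t * W ^ d) * (c * W) ≤ (t * W ^ d) * (((d + 1 : ℕ) : ℝ) * B * E) := by
    calc (t * W ^ d) * (c * W) = c * t * W ^ (d + 1) := by ring
      _ ≤ ((d + 1 : ℕ) : ℝ) * ((B * t) * (W ^ d * E)) := h3.trans (h.trans h1)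
      _ = _ := by ring
  have h5 : c * W ≤ ((d + 1 : ℕ) : ℝ) * B * E := le_of_mul_le_mul_left h4 (by positivity)
  have h6 : W ≤ ((d + 1 : ℕ) : ℝ) * B / c * E := by
    rw [div_mul_eq_mul_div, le_div_iff₀ hc]
    linarith
  linarith

theorem ineq_of_cert {L : Type} [Field L] [Algebra Qb L] (ψ : Fin 3 → L)
    (F N D : MvPolynomial (Fin 3) Qb) (m : ℕ) (hD : aeval ψ D ≠ 0)
    (hc : Cert Qb (aeval ψ F) (aeval ψ F * (aeval ψ N / aeval ψ D) ^ m)) :
    ∃ C : ℝ, 0 < C ∧ ∀ (σ : ℂ ≃+* ℂ) (y : Fin 3 → ℂ),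
      (∀ G : MvPolynomial (Fin 3) Qb, aeval ψ G = 0 → (aeval y G : ℂ) = 0) →
      C ≤ ‖σ (aeval y F : ℂ)‖ →
      ‖σ (aeval y N : ℂ)‖ ^ m * ‖σ (aeval y F : ℂ)‖ ≤ C * ‖σ (aeval y D : ℂ)‖ ^ m := by
  obtain ⟨r, q, p, hq, hp, hrel⟩ := hc
  set G : MvPolynomial (Fin 3) Qb := Polynomial.aeval F q * (F * N ^ m) ^ r +
    ∑ i ∈ Finset.range r, Polynomial.aeval F (p i) * (F * N ^ m) ^ i * (D ^ m) ^ (r - i) with hG
  have hG0 : aeval ψ G = 0 := by
    rw [hG, map_add, map_sum]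
    simp only [map_mul, map_pow, ← Polynomial.aeval_algHom_apply]
    set f' := aeval ψ F
    set n' := aeval ψ N
    set d' := aeval ψ D
    have hdm : d' ^ m ≠ 0 := pow_ne_zero _ hD
    have e1 : f' * n' ^ m = (f' * (n' / d') ^ m) * d' ^ m := by
      rw [div_pow]
      field_simp
    have e2 : Polynomial.aeval f' q * (f' * n' ^ m) ^ r +
        ∑ i ∈ Finset.range r, Polynomial.aeval f' (p i) * (f' * n' ^ m) ^ i * (d' ^ m) ^ (r - i) =
        (d' ^ m) ^ r * (Polynomial.aeval f' q * (f' * (n' / d') ^ m) ^ r +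
          ∑ i ∈ Finset.range r, Polynomial.aeval f' (p i) * (f' * (n' / d') ^ m) ^ i) := by
      rw [e1, mul_add, Finset.mul_sum]
      congr 1
      · rw [mul_pow]
        ring
      · refine Finset.sum_congr rfl fun i hi => ?_
        have hir : i + (r - i) = r := by
          rw [Finset.mem_range] at hi
          omega
        rw [mul_pow]
        conv_rhs => rw [← hir, pow_add]
        ring
    rw [e2, hrel, mul_zero]
  obtain ⟨c, C1, hc0, hC1, hlow⟩ := pev_lower q hq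
  choose B hB0 hB using fun i : ℕ => pev_upper (p i) q.natDegree (hp i)
  set BB : ℝ := ∑ i ∈ Finset.range r, B i with hBB
  have hBB0 : 0 ≤ BB := Finset.sum_nonneg fun i _ => hB0 i
  have hrBc : 0 ≤ r * BB / c := by positivity
  refine ⟨C1 + r * BB / c, by linarith, fun σ y hy hF => ?_⟩
  have hy0 := hy G hG0
  have hσ := congrArg σ hy0
  rw [map_zero, hG, map_add, map_sum, map_add, map_sum] at hσ
  simp only [map_mul, map_pow, ← Polynomial.aeval_algHom_apply, pev_eq] at hσ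
  set f := σ (aeval y F : ℂ) with hf
  set n := σ (aeval y N : ℂ)
  set d := σ (aeval y D : ℂ)
  have hfC : C1 ≤ ‖f‖ := by linarith
  have hf1 : 1 ≤ ‖f‖ := hC1.trans hfC
  have hmain : ‖pev σ f q‖ * (‖n‖ ^ m * ‖f‖) ^ r ≤
      ∑ i ∈ Finset.range r, ‖pev σ f (p i)‖ * (‖n‖ ^ m * ‖f‖) ^ i * (‖d‖ ^ m) ^ (r - i) := by
    have h1 : pev σ f q * (f * n ^ m) ^ r =
        - ∑ i ∈ Finset.range r, pev σ f (p i) * (f * n ^ m) ^ i * (d ^ m) ^ (r - i) :=
      eq_neg_of_add_eq_zero_left hσ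
    have h2 := congrArg norm h1
    rw [norm_neg] at h2
    have e : ∀ j : ℕ, ‖(f * n ^ m) ^ j‖ = (‖n‖ ^ m * ‖f‖) ^ j := by
      intro j
      rw [norm_pow, norm_mul, norm_pow, mul_comm]
    rw [norm_mul, e] at h2
    rw [h2]
    refine (norm_sum_le _ _).trans (Finset.sum_le_sum fun i _ => ?_)
    rw [norm_mul, norm_mul, e, norm_pow, norm_pow]
  have hfin := final_est r ‖pev σ f q‖ (‖n‖ ^ m * ‖f‖) (‖d‖ ^ m) c BB (‖f‖ ^ q.natDegree)
    (fun i => ‖pev σ f (p i)‖) hc0 (by positivity) hBB0 (by positivity) (by positivity)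
    (hlow σ f hfC) (fun i hi => (hB i σ f hf1).trans
      (mul_le_mul_of_nonneg_right (Finset.single_le_sum (fun j _ => hB0 j) hi) (by positivity)))
    hmain
  refine hfin.trans (mul_le_mul_of_nonneg_right ?_ (by positivity))
  linarith

end Pool.Agent.LGO
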