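import Mathlib
import Pool.Agent.LGO.G.Defs

/-!
# LGO, geometry, module G3: certificates or places

`cert_or_place`: let `R = k[F⁻¹, W⁻¹]` (`Algebra.adjoin k {F⁻¹, W⁻¹}`) and `I` its ideal generated by
`F⁻¹` and `W⁻¹`.
If `I = ⊤` then `1 = ∑ c_ij F^(-i) W^(-j)`, a finite sum over `(i, j) ≠ (0, 0)`, `i ≤ D`, `j ≤ r` (an
element of `R` is a polynomial in `F⁻¹, W⁻¹`; an element of `I` is such a polynomial without
constant term).  Multiply by `F^D W^r`: with `q = X^D - ∑_{i ≥ 1} c_i0 X^(D-i)` (of degree `D`) and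
`p_(r-j) = - ∑_i c_ij X^(D-i)` (`j ≥ 1`) this is `q(F) W^r + ∑_{i < r} p_i(F) W^i = 0`: `Cert k F W`.
If `I ≠ ⊤`, let `M ⊇ I` be a maximal ideal; there is a valuation subring `O ⊇ R` such that the
elements of `M` are nonunits of `O` (`LocalSubring.ofPrime`, `LocalSubring.exists_le_valuationSubring`
in `Mathlib/RingTheory/Valuation/LocalSubring.lean`, see the proof of the lemmas following it), so
`F⁻¹, W⁻¹` are nonunits of `O`, that is `F, W ∉ O`; `Over k O` because `k ⊆ R ⊆ O`.

`exists_place`: apply this with `W = F`.  `Cert k F F` is impossible: `q X^r + ∑ p_i X^i` is a nonzero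
polynomial (of degree `deg q + r`) which vanishes at `F`.
-/

namespace Pool.Agent.LGO

open Polynomial

variable {k L : Type} [Field k] [Field L] [Algebra k L]

/-- `x = ∑ c_ij F^(-i) W^(-j)`, `i ≤ D`, `j ≤ r`, after multiplication by `F^D W^r` -/
private def CertEx_Rep (F W : L) (D r : ℕ) (x : L) : Prop :=
  ∃ P : k[X][X], P.natDegree ≤ r ∧ (∀ j, (P.coeff j).natDegree ≤ D) ∧ F ^ D * W ^ r * x = ev2 F W P

private theorem CertEx_ev2_add (t x : L) (P Q : k[X][X]) : ev2 t x (P + Q) = ev2 t x P + ev2 t x Q :=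
  Polynomial.eval₂_add _ _

private theorem CertEx_ev2_sub (t x : L) (P Q : k[X][X]) : ev2 t x (P - Q) = ev2 t x P - ev2 t x Q :=
  Polynomial.eval₂_sub _

private theorem CertEx_ev2_mul (t x : L) (P Q : k[X][X]) : ev2 t x (P * Q) = ev2 t x P * ev2 t x Q :=
  Polynomial.eval₂_mul _ _

private theorem CertEx_ev2_C (t x : L) (p : k[X]) : ev2 t x (C p) = aeval t p :=
  Polynomial.eval₂_C _ _

private theorem CertEx_ev2_X (t x : L) : ev2 t x (X : k[X][X]) = x :=
  Polynomial.eval₂_X _ _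

private theorem CertEx_ev2_pow (t x : L) (P : k[X][X]) (n : ℕ) : ev2 t x (P ^ n) = ev2 t x P ^ n :=
  Polynomial.eval₂_pow _ _ _

private theorem CertEx_one (F W : L) (c : k) : CertEx_Rep (k := k) F W 0 0 (algebraMap k L c) := by
  refine ⟨C (C c), ?_, ?_, ?_⟩
  · simp
  · intro j
    rw [Polynomial.coeff_C]
    split_ifs <;> simp
  · rw [CertEx_ev2_C, Polynomial.aeval_C]
    simp

private theorem CertEx_mul {F W : L} {D r D' r' : ℕ} {x x' : L} (h : CertEx_Rep (k := k) F W D r x)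
    (h' : CertEx_Rep (k := k) F W D' r' x') : CertEx_Rep (k := k) F W (D + D') (r + r') (x * x') := by
  obtain ⟨P, h1, h2, h3⟩ := h
  obtain ⟨Q, h1', h2', h3'⟩ := h'
  refine ⟨P * Q, ?_, ?_, ?_⟩
  · exact Polynomial.natDegree_mul_le.trans (by omega)
  · intro j
    rw [Polynomial.coeff_mul]
    apply Polynomial.natDegree_sum_le_of_forall_le
    intro i _
    exact Polynomial.natDegree_mul_le.trans (Nat.add_le_add (h2 _) (h2' _))
  · rw [CertEx_ev2_mul, ← h3, ← h3']
    ring

private theorem CertEx_mono {F W : L} {D r D' r' : ℕ} (hD : D ≤ D') (hr : r ≤ r') {x : L}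
    (h : CertEx_Rep (k := k) F W D r x) : CertEx_Rep (k := k) F W D' r' x := by
  obtain ⟨P, h1, h2, h3⟩ := h
  refine ⟨C (X ^ (D' - D)) * P * X ^ (r' - r), ?_, ?_, ?_⟩
  · refine Polynomial.natDegree_mul_le.trans ?_
    have h4 : (C (X ^ (D' - D) : k[X]) * P).natDegree ≤ r := by
      refine (Polynomial.natDegree_C_mul_le _ _).trans h1
    have h5 : ((X : k[X][X]) ^ (r' - r)).natDegree ≤ r' - r := Polynomial.natDegree_X_pow_le _
    omega
  · intro j
    rw [Polynomial.coeff_mul_X_pow']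
    split_ifs
    · rw [Polynomial.coeff_C_mul]
      refine Polynomial.natDegree_mul_le.trans ?_
      have h4 := h2 (j - (r' - r))
      have h5 : ((X : k[X]) ^ (D' - D)).natDegree ≤ D' - D := Polynomial.natDegree_X_pow_le _
      omega
    · simp
  · rw [CertEx_ev2_mul, CertEx_ev2_mul, ← h3, CertEx_ev2_C, CertEx_ev2_pow, CertEx_ev2_X, map_pow,
      Polynomial.aeval_X]
    have h4 : F ^ D' = F ^ (D' - D) * F ^ D := by rw [← pow_add]; congr 1; omega
    have h5 : W ^ r' = W ^ (r' - r) * W ^ r := by rw [← pow_add]; congr 1; omega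
    rw [h4, h5]
    ring

private theorem CertEx_add {F W : L} {D r : ℕ} {x x' : L} (h : CertEx_Rep (k := k) F W D r x)
    (h' : CertEx_Rep (k := k) F W D r x') : CertEx_Rep (k := k) F W D r (x + x') := by
  obtain ⟨P, h1, h2, h3⟩ := h
  obtain ⟨Q, h1', h2', h3'⟩ := h'
  refine ⟨P + Q, ?_, ?_, ?_⟩
  · exact Polynomial.natDegree_add_le_of_degree_le h1 h1'
  · intro j
    rw [Polynomial.coeff_add]
    exact Polynomial.natDegree_add_le_of_degree_le (h2 _) (h2' _)
  · rw [CertEx_ev2_add, ← h3, ← h3']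
    ring

private theorem CertEx_adjoin {F W : L} (hF : F ≠ 0) (hW : W ≠ 0) {x : L}
    (hx : x ∈ Algebra.adjoin k ({F⁻¹, W⁻¹} : Set L)) : ∃ D r : ℕ, CertEx_Rep (k := k) F W D r x := by
  induction hx using Algebra.adjoin_induction with
  | mem x hx =>
    simp only [Set.mem_insert_iff, Set.mem_singleton_iff] at hx
    rcases hx with hx | hx
    · refine ⟨1, 0, C 1, ?_, ?_, ?_⟩
      · simp
      · intro j
        rw [Polynomial.coeff_C]
        split_ifs <;> simp
      · rw [CertEx_ev2_C, hx]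
        simp [hF]
    · refine ⟨0, 1, C 1, ?_, ?_, ?_⟩
      · simp
      · intro j
        rw [Polynomial.coeff_C]
        split_ifs <;> simp
      · rw [CertEx_ev2_C, hx]
        simp [hW]
  | algebraMap c => exact ⟨0, 0, CertEx_one F W c⟩
  | add x y _ _ hx hy =>
    obtain ⟨D, r, h⟩ := hx
    obtain ⟨D', r', h'⟩ := hy
    exact ⟨max D D', max r r', CertEx_add (CertEx_mono (le_max_left _ _) (le_max_left _ _) h)
      (CertEx_mono (le_max_right _ _) (le_max_right _ _) h')⟩
  | mul x y _ _ hx hy =>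
    obtain ⟨D, r, h⟩ := hx
    obtain ⟨D', r', h'⟩ := hy
    exact ⟨D + D', r + r', CertEx_mul h h'⟩

private theorem CertEx_cert {F W a b : L} (hF : F ≠ 0) (hW : W ≠ 0) {D r : ℕ}
    (ha : CertEx_Rep (k := k) F W D r a) (hb : CertEx_Rep (k := k) F W D r b)
    (h1 : a * F⁻¹ + b * W⁻¹ = 1) : Cert k F W := by
  obtain ⟨P, hP1, hP2, hP3⟩ := ha
  obtain ⟨Q, hQ1, hQ2, hQ3⟩ := hb
  set G : k[X][X] := X ^ (r + 1) * C (X ^ (D + 1)) - X * P - C X * Q with hG
  have hev : ev2 F W G = 0 := by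
    rw [hG, CertEx_ev2_sub, CertEx_ev2_sub, CertEx_ev2_mul, CertEx_ev2_mul, CertEx_ev2_mul, CertEx_ev2_pow,
      CertEx_ev2_X, CertEx_ev2_C, CertEx_ev2_C, ← hP3, ← hQ3, map_pow, Polynomial.aeval_X]
    have h2 : W ^ (r + 1) * F ^ (D + 1) = W ^ (r + 1) * F ^ (D + 1) * (a * F⁻¹ + b * W⁻¹) := by
      rw [h1, mul_one]
    rw [h2]
    field_simp
    ring
  have hc : ∀ i, G.coeff i = (if i = r + 1 then X ^ (D + 1) else 0) - (X * P).coeff i - X * Q.coeff i := by
    intro i
    rw [hG, Polynomial.coeff_sub, Polynomial.coeff_sub, Polynomial.coeff_C_mul, Polynomial.coeff_mul_C,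
      Polynomial.coeff_X_pow]
    split_ifs <;> simp
  have hXP : ∀ i, ((X * P).coeff i).natDegree ≤ D := by
    intro i
    cases i with
    | zero => simp
    | succ i =>
      rw [Polynomial.coeff_X_mul]
      exact hP2 i
  have hXQ : ∀ i, ((X : k[X]) * Q.coeff i).natDegree ≤ D + 1 := by
    intro i
    refine Polynomial.natDegree_mul_le.trans ?_
    have := hQ2 i
    have h3 : (X : k[X]).natDegree ≤ 1 := Polynomial.natDegree_X_le
    omega
  have hcd : ∀ i, (G.coeff i).natDegree ≤ D + 1 := by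
    intro i
    rw [hc i]
    apply (Polynomial.natDegree_sub_le_of_le (m := D + 1) (n := D + 1) _ (hXQ i)).trans (by simp)
    apply (Polynomial.natDegree_sub_le_of_le (m := D + 1) (n := D + 1) _ ((hXP i).trans (Nat.le_succ _))).trans
      (by simp)
    split_ifs
    · exact Polynomial.natDegree_X_pow_le _
    · simp
  have hq : G.coeff (r + 1) = X ^ (D + 1) - P.coeff r := by
    rw [hc, if_pos rfl, Polynomial.coeff_X_mul, Polynomial.coeff_eq_zero_of_natDegree_lt (p := Q) (by omega),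
      mul_zero, sub_zero]
  have hqd : (G.coeff (r + 1)).coeff (D + 1) = 1 := by
    rw [hq, Polynomial.coeff_sub, Polynomial.coeff_X_pow, if_pos rfl,
      Polynomial.coeff_eq_zero_of_natDegree_lt (Nat.lt_succ_of_le (hP2 r)), sub_zero]
  have hqn : D + 1 ≤ (G.coeff (r + 1)).natDegree := by
    apply Polynomial.le_natDegree_of_ne_zero
    rw [hqd]
    exact one_ne_zero
  have hGd : G.natDegree < r + 2 := by
    rw [Nat.lt_succ_iff, Polynomial.natDegree_le_iff_coeff_eq_zero]
    intro N hN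
    rw [hc, if_neg (by omega), Polynomial.coeff_eq_zero_of_natDegree_lt (p := Q) (by omega)]
    obtain ⟨N, rfl⟩ : ∃ M, N = M + 1 := ⟨N - 1, by omega⟩
    rw [Polynomial.coeff_X_mul, Polynomial.coeff_eq_zero_of_natDegree_lt (p := P) (by omega)]
    simp
  refine ⟨r + 1, G.coeff (r + 1), fun i => G.coeff i, ?_, ?_, ?_⟩
  · intro h
    rw [h, Polynomial.coeff_zero] at hqd
    exact zero_ne_one hqd
  · intro i
    exact (hcd i).trans hqn
  · have h2 : ev2 F W G = ∑ i ∈ Finset.range (r + 2), aeval F (G.coeff i) * W ^ i := by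
      rw [ev2, Polynomial.eval₂_eq_sum_range' _ hGd]
      rfl
    rw [hev, Finset.sum_range_succ] at h2
    rw [h2]
    ring

theorem cert_or_place {F W : L} (hF : F ≠ 0) (hW : W ≠ 0) :
    Cert k F W ∨ ∃ O : ValuationSubring L, Over k O ∧ F ∉ O ∧ W ∉ O := by
  set R : Subalgebra k L := Algebra.adjoin k ({F⁻¹, W⁻¹} : Set L) with hR
  have hFR : F⁻¹ ∈ R.toSubring := Algebra.subset_adjoin (by simp)
  have hWR : W⁻¹ ∈ R.toSubring := Algebra.subset_adjoin (by simp)
  set I : Ideal R.toSubring := Ideal.span {(⟨F⁻¹, hFR⟩ : R.toSubring), ⟨W⁻¹, hWR⟩} with hI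
  by_cases htop : I = ⊤
  · left
    have h1 : (1 : R.toSubring) ∈ I := by
      rw [htop]
      exact Submodule.mem_top
    rw [hI, Ideal.mem_span_pair] at h1
    obtain ⟨a, b, hab⟩ := h1
    have hab' : (a : L) * F⁻¹ + (b : L) * W⁻¹ = 1 := congrArg Subtype.val hab
    obtain ⟨D, r, h⟩ := CertEx_adjoin (k := k) hF hW (x := (a : L)) a.2
    obtain ⟨D', r', h'⟩ := CertEx_adjoin (k := k) hF hW (x := (b : L)) b.2
    exact CertEx_cert hF hW (CertEx_mono (le_max_left _ _) (le_max_left _ _) h)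
      (CertEx_mono (le_max_right _ _) (le_max_right _ _) h') hab'
  · right
    obtain ⟨O, hO, hIO⟩ := Ideal.image_subset_nonunits_valuationSubring I htop
    refine ⟨O, ?_, ?_, ?_⟩
    · intro c
      exact hO (R.algebraMap_mem c)
    · have h1 : F⁻¹ ∈ O.nonunits := hIO ⟨⟨F⁻¹, hFR⟩, Ideal.subset_span (by simp), rfl⟩
      exact (O.inv_mem_nonunits_iff.mp h1).resolve_left hF
    · have h1 : W⁻¹ ∈ O.nonunits := hIO ⟨⟨W⁻¹, hWR⟩, Ideal.subset_span (by simp), rfl⟩
      exact (O.inv_mem_nonunits_iff.mp h1).resolve_left hW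

theorem exists_place {F : L} (hF : Transcendental k F) :
    ∃ O : ValuationSubring L, Over k O ∧ F ∉ O := by
  have hF0 : F ≠ 0 := by
    rintro rfl
    exact hF (isAlgebraic_zero)
  rcases cert_or_place (k := k) hF0 hF0 with h | ⟨O, h1, h2, _⟩
  · exfalso
    obtain ⟨r, q, p, hq, hp, h⟩ := h
    have h1 : aeval F (q * X ^ r + ∑ i ∈ Finset.range r, p i * X ^ i) = 0 := by
      rw [map_add, map_mul, map_pow, Polynomial.aeval_X, map_sum, ← h]
      congr 1
      apply Finset.sum_congr rfl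
      intro i _
      rw [map_mul, map_pow, Polynomial.aeval_X]
    have h2 : q * X ^ r + ∑ i ∈ Finset.range r, p i * X ^ i = 0 := by
      by_contra h3
      exact hF ⟨_, h3, h1⟩
    have h3 := congrArg (fun f : k[X] => f.coeff (q.natDegree + r)) h2
    simp only [Polynomial.coeff_add, Polynomial.coeff_mul_X_pow, Polynomial.coeff_zero] at h3
    rw [Polynomial.finsetSum_coeff, Finset.sum_eq_zero, add_zero] at h3
    · exact hq (Polynomial.leadingCoeff_eq_zero.1 h3)
    · intro i hi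
      rw [Finset.mem_range] at hi
      rw [Polynomial.coeff_mul_X_pow']
      split_ifs
      · apply Polynomial.coeff_eq_zero_of_natDegree_lt
        have := hp i
        omega
      · rfl
  · exact ⟨O, h1, h2⟩

end Pool.Agent.LGO
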