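import Mathlib
import Pool.Agent.LGO.G.Defs

/-!
# LGO, geometry, module G1: places of a function field of one variable have rank one

* `valuation_aeval`: `v(t) > 1`, `v = 1` on nonzero constants, so in `p(t) = ∑ c_j t^j` the leading
  term dominates (`Valuation.map_add_eq_of_lt_right` or induction with `Polynomial.eraseLead`).
* `rank_one`: let `P = ∑ p_i X^i ≠ 0` with `∑ p_i(t) x^i = 0` (`Dep`, `Polynomial.eval₂_eq_sum_range`).
  The terms with `p_i ≠ 0` have valuation `v(t)^(deg p_i) v(x)^i`.  If the maximum of the valuations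
  of the terms were attained only once then the sum would have this valuation, so it would be
  nonzero (the case of a single nonzero term `p_i`: `p_i(t) x^i ≠ 0` because `x ≠ 0`).  So
  `v(t)^(d_i) v(x)^i = v(t)^(d_j) v(x)^j` with `i < j`: `v(x)^(j-i) = v(t)^(d_i - d_j)`.
* `exists_mul_pow_mem`: `v(x)^a = v(t)^b`; take `c = b.toNat`: `(v(x) v(t)^(-c))^a ≤ v(t)^(b - a c) ≤ 1`.
* `exists_pow_mul_mem`: `w = 0` trivial; `v(w)^a = v(t)^b < 1` so `b ≤ -1`, `v(w^a t) ≤ 1`.
* `eq_of_le`: suppose `O ≤ O'`, `x ∈ O'`, `x ∉ O`.  Then `v_O(x⁻¹) < 1`, so `x⁻¹ ^ s * t ∈ O ≤ O'` for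
  some `s > 0` and `t = x ^ s * (x⁻¹ ^ s * t) ∈ O'`, a contradiction.
-/

namespace Pool.Agent.LGO

open Polynomial

variable {k L : Type} [Field k] [Field L] [Algebra k L]

/-- nonzero constants are units -/
theorem valuation_const {O : ValuationSubring L} (hO : Over k O) {c : k} (hc : c ≠ 0) :
    O.valuation (algebraMap k L c) = 1 := by
  have h1 : O.valuation (algebraMap k L c) ≤ 1 := (O.valuation_le_one_iff _).2 (hO c)
  have h2 : O.valuation (algebraMap k L c⁻¹) ≤ 1 := (O.valuation_le_one_iff _).2 (hO c⁻¹)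
  refine le_antisymm h1 ?_
  have h3 : O.valuation (algebraMap k L c) * O.valuation (algebraMap k L c⁻¹) = 1 := by
    rw [← map_mul, ← map_mul, mul_inv_cancel₀ hc, map_one, map_one]
  calc (1 : O.ValueGroup) = O.valuation (algebraMap k L c) * O.valuation (algebraMap k L c⁻¹) :=
        h3.symm
    _ ≤ O.valuation (algebraMap k L c) * 1 := mul_le_mul_right h2 _
    _ = _ := mul_one _

theorem one_lt_of_notMem {O : ValuationSubring L} {t : L} (ht : t ∉ O) : 1 < O.valuation t := by
  rw [← not_le, O.valuation_le_one_iff]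
  exact ht

theorem valuation_aeval {O : ValuationSubring L} (hO : Over k O) {t : L} (ht : t ∉ O) {p : k[X]}
    (hp : p ≠ 0) : O.valuation (aeval t p) = O.valuation t ^ p.natDegree := by
  have h1 := one_lt_of_notMem ht
  have key : ∀ n : ℕ, ∀ p : k[X], p.natDegree = n → p ≠ 0 →
      O.valuation (aeval t p) = O.valuation t ^ p.natDegree := by
    intro n
    induction n using Nat.strong_induction_on with
    | _ n ih =>
      intro p hpn hp
      have hlc : p.leadingCoeff ≠ 0 := leadingCoeff_ne_zero.2 hp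
      have hm : O.valuation (aeval t (C p.leadingCoeff * X ^ p.natDegree)) =
          O.valuation t ^ p.natDegree := by
        rw [map_mul, map_pow, aeval_C, aeval_X, map_mul, map_pow, valuation_const hO hlc, one_mul]
      rw [← eraseLead_add_C_mul_X_pow p, map_add, eraseLead_add_C_mul_X_pow]
      by_cases he : p.eraseLead = 0
      · rw [he, map_zero, zero_add, hm]
      · rcases eraseLead_natDegree_lt_or_eraseLead_eq_zero p with h | h
        · have h2 := ih _ (hpn ▸ h) p.eraseLead rfl he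
          rw [Valuation.map_add_eq_of_lt_right, hm]
          rw [h2, hm]
          exact pow_lt_pow_right₀ h1 h
        · exact absurd h he
  exact key _ p rfl hp

private theorem rank_aux {G : Type} [LinearOrderedCommGroupWithZero G] {u y : G} (hu : u ≠ 0)
    (hy : y ≠ 0) {i j d e : ℕ} (hij : i < j) (h : u ^ d * y ^ i = u ^ e * y ^ j) :
    ∃ (a : ℕ) (b : ℤ), 0 < a ∧ y ^ a = u ^ b := by
  refine ⟨j - i, (d : ℤ) - e, Nat.sub_pos_of_lt hij, ?_⟩
  have h1 : y ^ j = y ^ (j - i) * y ^ i := by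
    rw [← pow_add, Nat.sub_add_cancel hij.le]
  rw [h1, ← mul_assoc] at h
  have h2 := mul_right_cancel₀ (pow_ne_zero i hy) h
  rw [zpow_sub₀ hu, zpow_natCast, zpow_natCast, eq_div_iff (pow_ne_zero e hu), h2, mul_comm]

private theorem le_one_of_pow {G : Type} [LinearOrderedCommGroupWithZero G] {y : G} {a : ℕ}
    (ha : 0 < a) (h : y ^ a ≤ 1) : y ≤ 1 := by
  by_contra hcon
  rw [not_le] at hcon
  exact absurd h (not_le.2 (one_lt_pow₀ hcon ha.ne'))

theorem rank_one (hdep : Dep k L) {O : ValuationSubring L} (hO : Over k O) {t : L} (ht : t ∉ O)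
    {x : L} (hx : x ≠ 0) :
    ∃ (a : ℕ) (b : ℤ), 0 < a ∧ O.valuation x ^ a = O.valuation t ^ b := by
  have h1 := one_lt_of_notMem ht
  have ht0 : O.valuation t ≠ 0 := (zero_lt_one.trans h1).ne'
  have hx0 : O.valuation x ≠ 0 := (Valuation.ne_zero_iff _).2 hx
  obtain ⟨P, hP, hE⟩ := hdep t x
  unfold ev2 at hE
  rw [eval₂_eq_sum_range] at hE
  have hf : ∀ i ∈ P.support, O.valuation (aeval t (P.coeff i) * x ^ i) =
      O.valuation t ^ (P.coeff i).natDegree * O.valuation x ^ i := by
    intro i hi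
    rw [map_mul, map_pow, valuation_aeval hO ht (mem_support_iff.1 hi)]
  have hE' : ∑ i ∈ P.support, aeval t (P.coeff i) * x ^ i = 0 := by
    rw [← hE]
    symm
    rw [← Finset.sum_subset (supp_subset_range (Nat.lt_succ_self _))]
    · rfl
    · intro i _ hi
      rw [notMem_support_iff.1 hi, map_zero, zero_mul]
  have hne : P.support.Nonempty := by
    rw [Finset.nonempty_iff_ne_empty, Ne, support_eq_empty]
    exact hP
  obtain ⟨i0, hi0, hmax⟩ := Finset.exists_max_image P.support
    (fun i => O.valuation (aeval t (P.coeff i) * x ^ i)) hne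
  have hi0ne : O.valuation (aeval t (P.coeff i0) * x ^ i0) ≠ 0 := by
    rw [hf i0 hi0]
    exact mul_ne_zero (pow_ne_zero _ ht0) (pow_ne_zero _ hx0)
  obtain ⟨j, hj, hji, hjv⟩ : ∃ j ∈ P.support, j ≠ i0 ∧
      O.valuation (aeval t (P.coeff j) * x ^ j) =
        O.valuation (aeval t (P.coeff i0) * x ^ i0) := by
    by_contra hcon
    push Not at hcon
    have h2 : ∀ i ∈ P.support.erase i0, O.valuation (aeval t (P.coeff i) * x ^ i) <
        O.valuation (aeval t (P.coeff i0) * x ^ i0) := by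
      intro i hi
      rw [Finset.mem_erase] at hi
      exact lt_of_le_of_ne (hmax i hi.2) (hcon i hi.2 hi.1)
    have h3 := Valuation.map_sum_lt O.valuation hi0ne h2
    rw [← Finset.add_sum_erase _ _ hi0] at hE'
    have h4 := Valuation.map_add_eq_of_lt_left O.valuation h3
    rw [hE', map_zero] at h4
    exact hi0ne h4.symm
  rw [hf j hj, hf i0 hi0] at hjv
  rcases lt_or_gt_of_ne hji with h | h
  · exact rank_aux ht0 hx0 h hjv
  · exact rank_aux ht0 hx0 h hjv.symm

theorem exists_mul_pow_mem (hdep : Dep k L) {O : ValuationSubring L} (hO : Over k O) {t : L}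
    (ht : t ∉ O) (x : L) : ∃ c : ℕ, ∀ c', c ≤ c' → x * (t⁻¹) ^ c' ∈ O := by
  have h1 := one_lt_of_notMem ht
  have ht0 : O.valuation t ≠ 0 := (zero_lt_one.trans h1).ne'
  by_cases hx : x = 0
  · refine ⟨0, fun c' _ => ?_⟩
    rw [hx, zero_mul]
    exact O.zero_mem
  · obtain ⟨a, b, ha, hab⟩ := rank_one hdep hO ht hx
    refine ⟨b.toNat, fun c' hc' => ?_⟩
    rw [← O.valuation_le_one_iff]
    apply le_one_of_pow ha
    have h2 : O.valuation (x * t⁻¹ ^ c') ^ a = O.valuation t ^ (b - a * c') := by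
      rw [map_mul, mul_pow, hab, map_pow, map_inv₀, ← pow_mul, zpow_sub₀ ht0, inv_pow,
        div_eq_mul_inv, mul_comm c' a]
      norm_cast
    rw [h2]
    apply zpow_le_one_of_nonpos₀ h1.le
    have h3 : b ≤ c' := (Int.self_le_toNat b).trans (by exact_mod_cast hc')
    have h4 : (c' : ℤ) ≤ a * c' := by
      have : c' ≤ a * c' := Nat.le_mul_of_pos_left _ ha
      exact_mod_cast this
    linarith

theorem exists_pow_mul_mem (hdep : Dep k L) {O : ValuationSubring L} (hO : Over k O) {t : L}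
    (ht : t ∉ O) {w : L} (hw : O.valuation w < 1) :
    ∃ s : ℕ, 0 < s ∧ ∀ s', s ≤ s' → w ^ s' * t ∈ O := by
  have h1 := one_lt_of_notMem ht
  have ht0 : O.valuation t ≠ 0 := (zero_lt_one.trans h1).ne'
  by_cases hw0 : w = 0
  · refine ⟨1, one_pos, fun s' hs' => ?_⟩
    rw [hw0, zero_pow (by omega), zero_mul]
    exact O.zero_mem
  · obtain ⟨a, b, ha, hab⟩ := rank_one hdep hO ht hw0
    refine ⟨a, ha, fun s' hs' => ?_⟩
    rw [← O.valuation_le_one_iff]
    have h2 : O.valuation w ^ a < 1 := pow_lt_one₀ zero_le hw ha.ne'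
    rw [hab, zpow_lt_one_iff_right₀ h1] at h2
    have h3 : O.valuation w ^ s' ≤ O.valuation w ^ a :=
      pow_le_pow_of_le_one zero_le hw.le hs'
    rw [map_mul, map_pow]
    calc O.valuation w ^ s' * O.valuation t ≤ O.valuation w ^ a * O.valuation t :=
          mul_le_mul_left h3 _
      _ = O.valuation t ^ (b + 1) := by rw [hab, zpow_add_one₀ ht0]
      _ ≤ 1 := zpow_le_one_of_nonpos₀ h1.le (by omega)

theorem eq_of_le (hdep : Dep k L) {O O' : ValuationSubring L} (hO : Over k O) {t : L}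
    (ht' : t ∉ O') (hle : O ≤ O') : O = O' := by
  refine le_antisymm hle ?_
  intro x hx
  by_contra hxO
  have ht : t ∉ O := fun h => ht' (hle h)
  have h1 := one_lt_of_notMem hxO
  have hx0 : x ≠ 0 := by
    rintro rfl
    exact hxO O.zero_mem
  have h2 : O.valuation x⁻¹ < 1 := by
    rw [map_inv₀]
    exact inv_lt_one_of_one_lt₀ h1
  obtain ⟨s, _, hs⟩ := exists_pow_mul_mem hdep hO ht h2
  have h3 := hle (hs s le_rfl)
  have h4 : x ^ s * (x⁻¹ ^ s * t) ∈ O' := O'.mul_mem _ _ (pow_mem hx s) h3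
  rw [← mul_assoc, ← mul_pow, mul_inv_cancel₀ hx0, one_pow, one_mul] at h4
  exact ht' h4

end Pool.Agent.LGO
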