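import Mathlib
import Pool.Agent.LGO.G.Rank

/-!
# LGO, geometry, module G4: the centers of the poles of `t` are distinct

`exists_sep`.  By `eq_of_le` (applied to `O ≤ O'`) there is `x ∈ O` with `x ∉ O'`; so
`v_(O')(x⁻¹) < 1`.  Let `P = ∑ p_i X^i ≠ 0` with `∑ p_i(t) x^i = 0`, `n = natDegree P`, `D` the maximum
of the degrees of the `p_i`, `c_i = p_i(t) t^(-D)`: by `valuation_aeval` `c_i ∈ O''` for all
`O'' ∈ Inf k t`, and for an index `j` with `deg p_j = D` (and `p_j ≠ 0`) `v_(O'')(c_j) = 1` for all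
`O'' ∈ Inf k t`.  Let `b_j = ∑_{i ≥ j} c_i x^(i-j)` (so `b_(n+1) = 0`, `b_j = c_j + x b_(j+1)`,
`b_0 = 0`) and `a_j = x b_j = - (c_(j-1) + c_(j-2) x⁻¹ + ... + c_0 x^(1-j))` for `j ≥ 1`.  For every
`O'' ∈ Inf k t` we have `b_j, a_j ∈ O''`: if `x ∈ O''` from the first formulas, if `x⁻¹ ∈ O''` from the
last one (`b_j = x⁻¹ a_j`).
At `O`: `c_j = b_j - a_(j+1)` has valuation one, so `v_O(b_j) = 1` or `v_O(a_(j+1)) = 1`; in the second
case `v_O(b_(j+1)) = 1` since `x ∈ O`.  So some `b_i` has `v_O(b_i) = 1`; and `i ≥ 1` since `b_0 = 0`, and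
`v_(O')(b_i) = v_(O')(a_i) v_(O')(x⁻¹) < 1`.
-/

namespace Pool.Agent.LGO

open Polynomial

variable {k L : Type} [Field k] [Field L] [Algebra k L]

/-- the sequence `b_j`: `b_0 = 0`, `b_(j+1) = x⁻¹ (b_j - c_j)` -/
private noncomputable def sepSeq (x : L) (c : ℕ → L) : ℕ → L
  | 0 => 0
  | j + 1 => x⁻¹ * (sepSeq x c j - c j)

private theorem sepSeq_zero (x : L) (c : ℕ → L) : sepSeq x c 0 = 0 := rfl

private theorem sepSeq_succ (x : L) (c : ℕ → L) (j : ℕ) :
    sepSeq x c (j + 1) = x⁻¹ * (sepSeq x c j - c j) := rfl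

private theorem mul_sepSeq_succ {x : L} (hx : x ≠ 0) (c : ℕ → L) (j : ℕ) :
    x * sepSeq x c (j + 1) = sepSeq x c j - c j := by
  rw [sepSeq_succ, mul_inv_cancel_left₀ hx]

private theorem pow_mul_sepSeq {x : L} (hx : x ≠ 0) (c : ℕ → L) (j : ℕ) :
    x ^ j * sepSeq x c j = - ∑ i ∈ Finset.range j, c i * x ^ i := by
  induction j with
  | zero => simp [sepSeq_zero]
  | succ j ih =>
    rw [pow_succ, mul_assoc, mul_sepSeq_succ hx, mul_sub, ih, Finset.sum_range_succ]
    ring

theorem exists_sep (hdep : Dep k L) {t : L} {O O' : ValuationSubring L} (hO : O ∈ Inf k t)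
    (hO' : O' ∈ Inf k t) (hne : O ≠ O') :
    ∃ b : L, (∀ O'' ∈ Inf k t, b ∈ O'') ∧ O.valuation b = 1 ∧ O'.valuation b < 1 := by
  classical
  have hnle : ¬ O ≤ O' := fun h => hne (eq_of_le hdep hO.1 hO'.2 h)
  obtain ⟨x, hxO, hxO'⟩ := SetLike.not_le_iff_exists.1 hnle
  have hx0 : x ≠ 0 := by
    rintro rfl
    exact hxO' O'.zero_mem
  have ht0 : t ≠ 0 := by
    rintro rfl
    exact hO.2 O.zero_mem
  obtain ⟨P, hP, hPe⟩ := hdep t x
  have hsup : P.support.Nonempty := Polynomial.support_nonempty.2 hP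
  obtain ⟨j, hj, hmax⟩ := Finset.exists_max_image P.support (fun i => (P.coeff i).natDegree) hsup
  have hjne : P.coeff j ≠ 0 := Polynomial.mem_support_iff.1 hj
  set D : ℕ := (P.coeff j).natDegree with hD
  let c : ℕ → L := fun i => aeval t (P.coeff i) * (t⁻¹) ^ D
  have hcval : ∀ O'' ∈ Inf k t, ∀ i, P.coeff i ≠ 0 →
      O''.valuation (c i) = O''.valuation t ^ (P.coeff i).natDegree * (O''.valuation t)⁻¹ ^ D := by
    intro O'' h i hi
    simp only [c, map_mul, map_pow, map_inv₀, valuation_aeval h.1 h.2 hi]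
  have hc : ∀ O'' ∈ Inf k t, ∀ i, c i ∈ O'' := by
    intro O'' h i
    by_cases hi : P.coeff i = 0
    · have : c i = 0 := by simp [c, hi]
      rw [this]
      exact O''.zero_mem
    · rw [← O''.valuation_le_one_iff, hcval O'' h i hi]
      have h1 : 1 < O''.valuation t := one_lt_of_notMem h.2
      have h0 : O''.valuation t ≠ 0 := (lt_trans zero_lt_one h1).ne'
      have hle : (P.coeff i).natDegree ≤ D := hmax i (Polynomial.mem_support_iff.2 hi)
      calc O''.valuation t ^ (P.coeff i).natDegree * (O''.valuation t)⁻¹ ^ D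
          ≤ O''.valuation t ^ D * (O''.valuation t)⁻¹ ^ D :=
            mul_le_mul_left (pow_le_pow_right₀ h1.le hle) _
        _ = 1 := by rw [← mul_pow, mul_inv_cancel₀ h0, one_pow]
  have hcj : O.valuation (c j) = 1 := by
    rw [hcval O hO j hjne]
    have h1 : 1 < O.valuation t := one_lt_of_notMem hO.2
    have h0 : O.valuation t ≠ 0 := (lt_trans zero_lt_one h1).ne'
    rw [← hD, ← mul_pow, mul_inv_cancel₀ h0, one_pow]
  let b : ℕ → L := sepSeq x c
  have hb0 : b 0 = 0 := rfl
  have hbs : ∀ i, b (i + 1) = x⁻¹ * (b i - c i) := fun i => rfl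
  have hbm : ∀ i, x * b (i + 1) = b i - c i := fun i => mul_sepSeq_succ hx0 c i
  have hsum : ∑ i ∈ Finset.range (P.natDegree + 1), c i * x ^ i = 0 := by
    have h1 : ev2 t x P = ∑ i ∈ Finset.range (P.natDegree + 1), aeval t (P.coeff i) * x ^ i := by
      unfold ev2
      rw [Polynomial.eval₂_eq_sum_range]
      rfl
    have h2 : ∑ i ∈ Finset.range (P.natDegree + 1), c i * x ^ i =
        (t⁻¹) ^ D * ∑ i ∈ Finset.range (P.natDegree + 1), aeval t (P.coeff i) * x ^ i := by
      rw [Finset.mul_sum]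
      refine Finset.sum_congr rfl fun i _ => ?_
      simp only [c]
      ring
    rw [h2, ← h1, hPe, mul_zero]
  have hbn : b (P.natDegree + 1) = 0 := by
    have h := pow_mul_sepSeq hx0 c (P.natDegree + 1)
    rw [hsum, neg_zero] at h
    exact (mul_eq_zero.1 h).resolve_left (pow_ne_zero _ hx0)
  have hbmem : ∀ O'' ∈ Inf k t, ∀ i, i ≤ P.natDegree + 1 → b i ∈ O'' := by
    intro O'' h
    rcases O''.mem_or_inv_mem x with hx | hx
    · have key : ∀ m, m ≤ P.natDegree + 1 → b (P.natDegree + 1 - m) ∈ O'' := by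
        intro m
        induction m with
        | zero =>
          intro _
          rw [Nat.sub_zero, hbn]
          exact O''.zero_mem
        | succ m ih =>
          intro hm
          have h1 := ih (by omega)
          have h2 : P.natDegree + 1 - m = (P.natDegree + 1 - (m + 1)) + 1 := by omega
          rw [h2] at h1
          have h3 := hbm (P.natDegree + 1 - (m + 1))
          have h4 : b (P.natDegree + 1 - (m + 1)) =
              x * b (P.natDegree + 1 - (m + 1) + 1) + c (P.natDegree + 1 - (m + 1)) := by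
            rw [h3]
            ring
          rw [h4]
          exact O''.add_mem _ _ (O''.mul_mem _ _ hx h1) (hc O'' h _)
      intro i hi
      have h1 := key (P.natDegree + 1 - i) (by omega)
      have h2 : P.natDegree + 1 - (P.natDegree + 1 - i) = i := by omega
      rwa [h2] at h1
    · have key : ∀ i, b i ∈ O'' := by
        intro i
        induction i with
        | zero =>
          rw [hb0]
          exact O''.zero_mem
        | succ i ih =>
          rw [hbs]
          exact O''.mul_mem _ _ hx (sub_mem ih (hc O'' h i))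
      intro i _
      exact key i
  have hjn : j ≤ P.natDegree := Polynomial.le_natDegree_of_mem_supp j hj
  have hex : ∃ i, i ≤ P.natDegree + 1 ∧ O.valuation (b i) = 1 := by
    by_contra hcon
    push Not at hcon
    have h1 : O.valuation (b j) < 1 := lt_of_le_of_ne
      ((O.valuation_le_one_iff _).2 (hbmem O hO j (by omega))) (hcon j (by omega))
    have h2 : O.valuation (b (j + 1)) < 1 := lt_of_le_of_ne
      ((O.valuation_le_one_iff _).2 (hbmem O hO (j + 1) (by omega))) (hcon (j + 1) (by omega))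
    have h3 : O.valuation (x * b (j + 1)) < 1 := by
      rw [map_mul]
      exact lt_of_le_of_lt (mul_le_of_le_one_left' ((O.valuation_le_one_iff _).2 hxO)) h2
    have h4 : c j = b j - x * b (j + 1) := by
      rw [hbm]
      ring
    have h5 : O.valuation (c j) < 1 := by
      rw [h4]
      exact lt_of_le_of_lt (O.valuation.map_sub _ _) (max_lt h1 h3)
    exact absurd hcj h5.ne
  obtain ⟨i, hi, hvi⟩ := hex
  refine ⟨b i, fun O'' h => hbmem O'' h i hi, hvi, ?_⟩
  cases i with
  | zero =>
    rw [hb0, map_zero] at hvi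
    exact absurd hvi zero_ne_one
  | succ i =>
    rw [hbs, map_mul]
    have h1 : O'.valuation (b i - c i) ≤ 1 :=
      (O'.valuation_le_one_iff _).2 (sub_mem (hbmem O' hO' i (by omega)) (hc O' hO' i))
    have h2 : O'.valuation x⁻¹ < 1 := by
      rw [map_inv₀]
      exact inv_lt_one_of_one_lt₀ (one_lt_of_notMem hxO')
    exact lt_of_le_of_lt (mul_le_of_le_one_right' h1) h2

end Pool.Agent.LGO
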