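import Mathlib
import Pool.Agent.LGO.G.Center

/-!
# LGO, geometry, module G5: dimension bounds at infinity

* `dep_mod`: multiply the `g i` by a common denominator (`Setup.span`): `q(t) g_i = ∑_j p_ij(t) b_j`,
  `q ≠ 0`.  The `δ + 1` vectors `(p_ij)_j ∈ k(t)^δ` are linearly dependent, so there are polynomials
  `a_i ∈ k[X]`, not all zero, with `∑_i a_i(t) g_i = 0` (`Setup.trans`: `aeval t` is injective).  Let
  `D` = the maximum of the degrees, `c i` = the coefficient of `X^D` in `a_i` (`c ≠ 0`).  Then for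
  `O ∈ Inf k t`: `(∑ c_i g_i) t = - ∑ (a_i(t) - c_i t^D) t^(1-D) g_i ∈ O`, as `a_i - c_i X^D` has degree
  `≤ D - 1` (and is zero if `D = 0`) and `v(t) > 1` (`valuation_aeval`).
* `finite_inf`: there are at most `δ` elements in `Inf k t`: if `O_0, ..., O_δ` are distinct, take
  `b_ij` from `exists_sep` for `(O_i, O_j)`, `e_i = ∏_{j ≠ i} b_ij`, so `v_i(e_i) = 1`, `v_j(e_i) < 1` for
  `j ≠ i`, `e_i ∈ O''` for all `O'' ∈ Inf k t`.  By `dep_mod`, `∑ c_i e_i = t⁻¹ ·` (element of all `O''`),
  `c_i ≠ 0` for some `i`, contradiction at `O_i`.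
* `dim_bound`: induction on `m`.  `m = 0`: `BB k t 0` contains the range.  Step: let
  `W1 = comap θ (BB k t m)`; the map `W1 → L`, `w ↦ θ(w) t^m` has values in all `O ∈ Inf k t`, and the
  preimage of `BB k t 1` under it is `comap θ (BB k t (m+1))`; a subspace `U` of `W1` complementary to
  it has dimension `≤ δ` by `dep_mod` (if `δ + 1` linearly independent elements of `U` existed, the
  combination given by `dep_mod` would be a nonzero element of `U` in the preimage).
-/

namespace Pool.Agent.LGO

open Polynomial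

variable {k L : Type} [Field k] [Field L] [Algebra k L]

private theorem DimB_not_inj {R : Type} [CommRing R] [Nontrivial R] {δ : ℕ}
    (P : Fin (δ + 1) → Fin δ → R) : ∃ a : Fin (δ + 1) → R, a ≠ 0 ∧ ∀ j, ∑ i, a i * P i j = 0 := by
  classical
  let f : (Fin (δ + 1) → R) →ₗ[R] (Fin δ → R) :=
    Matrix.mulVecLin (Matrix.of fun (j : Fin δ) (i : Fin (δ + 1)) => P i j)
  have hf : ¬ Function.Injective f := by
    intro h
    have h1 := card_le_of_injective R f h
    simp at h1
  rw [injective_iff_map_eq_zero] at hf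
  push Not at hf
  obtain ⟨a, ha, ha0⟩ := hf
  refine ⟨a, ha0, fun j => ?_⟩
  have h1 := congrFun ha j
  simp only [f, Matrix.mulVecLin_apply, Matrix.mulVec, dotProduct, Matrix.of_apply,
    Pi.zero_apply] at h1
  rw [← h1]
  exact Finset.sum_congr rfl fun i _ => mul_comm _ _

theorem dep_mod {A : Subalgebra k L} {t : L} {δ : ℕ} {b : Fin δ → L} (h : Setup k A t δ b)
    (g : Fin (δ + 1) → L) (hg : ∀ i, ∀ O ∈ Inf k t, g i ∈ O) :
    ∃ c : Fin (δ + 1) → k, c ≠ 0 ∧ ∀ O ∈ Inf k t, (∑ i, algebraMap k L (c i) * g i) * t ∈ O := by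
  classical
  choose q p hq hqp using fun i => h.span (g i)
  let P : Fin (δ + 1) → Fin δ → k[X] := fun i j => (∏ l ∈ Finset.univ.erase i, q l) * p i j
  have hP : ∀ i, aeval t (∏ l, q l) * g i = ∑ j, aeval t (P i j) * b j := by
    intro i
    rw [← Finset.mul_prod_erase Finset.univ q (Finset.mem_univ i), map_mul,
      mul_comm (aeval t (q i)), mul_assoc, hqp, Finset.mul_sum]
    refine Finset.sum_congr rfl fun j _ => ?_
    simp only [P, map_mul]
    ring
  obtain ⟨a, ha, haP⟩ := DimB_not_inj P
  have hinj : ∀ r : k[X], r ≠ 0 → aeval t r ≠ 0 := fun r hr h0 =>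
    hr ((injective_iff_map_eq_zero _).1 (transcendental_iff_injective.1 h.trans) r h0)
  have hrel : ∑ i, aeval t (a i) * g i = 0 := by
    have h1 : aeval t (∏ l, q l) * ∑ i, aeval t (a i) * g i = 0 := by
      rw [Finset.mul_sum]
      have h2 : ∀ i, aeval t (∏ l, q l) * (aeval t (a i) * g i) =
          ∑ j, aeval t (a i * P i j) * b j := by
        intro i
        rw [mul_left_comm, hP, Finset.mul_sum]
        refine Finset.sum_congr rfl fun j _ => ?_
        rw [map_mul (aeval t) (a i) (P i j)]
        ring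
      rw [Finset.sum_congr rfl fun i _ => h2 i, Finset.sum_comm]
      refine Finset.sum_eq_zero fun j _ => ?_
      rw [← Finset.sum_mul, ← map_sum, haP, map_zero, zero_mul]
    exact (mul_eq_zero.1 h1).resolve_left (hinj _ (Finset.prod_ne_zero_iff.2 fun i _ => hq i))
  -- the maximal degree
  obtain ⟨i0, hi0⟩ : ∃ i, a i ≠ 0 := by
    by_contra hcon
    push Not at hcon
    exact ha (funext hcon)
  obtain ⟨i1, hi1, hmax⟩ := Finset.exists_max_image (Finset.univ.filter fun i => a i ≠ 0)
    (fun i => (a i).natDegree) ⟨i0, by simp [hi0]⟩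
  have ha1 : a i1 ≠ 0 := (Finset.mem_filter.1 hi1).2
  set D := (a i1).natDegree with hD
  have hdeg : ∀ i, (a i).natDegree ≤ D := by
    intro i
    by_cases hi : a i = 0
    · rw [hi]
      simp
    · exact hmax i (by simp [hi])
  refine ⟨fun i => (a i).coeff D, fun h0 => ?_, fun O hO => ?_⟩
  · have h1 := congrFun h0 i1
    exact ha1 (leadingCoeff_eq_zero.1 h1)
  · have ht : t ≠ 0 := by
      rintro rfl
      exact hO.2 O.zero_mem
    have hv := one_lt_of_notMem hO.2
    have hv0 : O.valuation t ≠ 0 := (zero_lt_one.trans hv).ne'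
    let r : Fin (δ + 1) → k[X] := fun i => a i - C ((a i).coeff D) * X ^ D
    have hr : ∀ i, aeval t (r i) = aeval t (a i) - algebraMap k L ((a i).coeff D) * t ^ D := by
      intro i
      simp only [r, map_sub, map_mul, map_pow, aeval_C, aeval_X]
    have hrO : ∀ i, aeval t (r i) * t * (t⁻¹) ^ D ∈ O := by
      intro i
      by_cases hri : r i = 0
      · rw [hri, map_zero, zero_mul, zero_mul]
        exact O.zero_mem
      · have hcoeff : ∀ n, D ≤ n → (r i).coeff n = 0 := by
          intro n hn
          simp only [r, coeff_sub, coeff_C_mul, coeff_X_pow]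
          rcases hn.eq_or_lt with h1 | h1
          · subst h1
            simp
          · rw [if_neg h1.ne', mul_zero, sub_zero]
            exact coeff_eq_zero_of_natDegree_lt ((hdeg i).trans_lt h1)
        have hlt : (r i).natDegree < D := by
          by_contra hcon
          rw [not_lt] at hcon
          exact hri (leadingCoeff_eq_zero.1 (hcoeff _ hcon))
        rw [← O.valuation_le_one_iff, map_mul, map_mul, valuation_aeval hO.1 hO.2 hri, map_pow,
          map_inv₀, ← pow_succ]
        calc O.valuation t ^ ((r i).natDegree + 1) * (O.valuation t)⁻¹ ^ D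
            ≤ O.valuation t ^ D * (O.valuation t)⁻¹ ^ D :=
              mul_le_mul_left (pow_le_pow_right₀ hv.le hlt) _
          _ = 1 := by rw [← mul_pow, mul_inv_cancel₀ hv0, one_pow]
    have hsum : (∑ i, algebraMap k L ((a i).coeff D) * g i) * t =
        -∑ i, (aeval t (r i) * t * (t⁻¹) ^ D) * g i := by
      have h1 : ∑ i, (aeval t (r i) * t * (t⁻¹) ^ D) * g i =
          (t * (t⁻¹) ^ D) * ∑ i, aeval t (a i) * g i -
            (t * ((t⁻¹) ^ D * t ^ D)) * ∑ i, algebraMap k L ((a i).coeff D) * g i := by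
        rw [Finset.mul_sum, Finset.mul_sum, ← Finset.sum_sub_distrib]
        refine Finset.sum_congr rfl fun i _ => ?_
        rw [hr]
        ring
      rw [h1, hrel, ← mul_pow, inv_mul_cancel₀ ht, one_pow]
      ring
    rw [hsum]
    exact neg_mem (sum_mem fun i _ => O.mul_mem _ _ (hrO i) (hg i O hO))

theorem finite_inf (hdep : Dep k L) {A : Subalgebra k L} {t : L} {δ : ℕ} {b : Fin δ → L}
    (h : Setup k A t δ b) : (Inf k t).Finite := by
  classical
  by_contra hinf
  have hinf' : (Inf k t).Infinite := hinf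
  obtain ⟨s, hs, hcard⟩ := hinf'.exists_subset_card_eq (δ + 1)
  let e : Fin (δ + 1) ≃ s := (Finset.equivFinOfCardEq hcard).symm
  let O : Fin (δ + 1) → ValuationSubring L := fun i => e i
  have hO : ∀ i, O i ∈ Inf k t := fun i => hs (e i).2
  have hOinj : ∀ i j, i ≠ j → O i ≠ O j := fun i j hij h0 =>
    hij (e.injective (Subtype.ext h0))
  have hsep : ∀ i j, ∃ c : L, (∀ O'' ∈ Inf k t, c ∈ O'') ∧ (O i).valuation c = 1 ∧
      (i ≠ j → (O j).valuation c < 1) := by
    intro i j
    by_cases hij : i = j
    · refine ⟨1, fun O'' _ => O''.one_mem, map_one _, fun h0 => absurd hij h0⟩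
    · obtain ⟨c, h1, h2, h3⟩ := exists_sep hdep (hO i) (hO j) (hOinj i j hij)
      exact ⟨c, h1, h2, fun _ => h3⟩
  choose c hc1 hc2 hc3 using hsep
  let g : Fin (δ + 1) → L := fun i => ∏ j, c i j
  have hg : ∀ i, ∀ O'' ∈ Inf k t, g i ∈ O'' := fun i O'' hO'' =>
    prod_mem fun j _ => hc1 i j O'' hO''
  have hgi : ∀ i, (O i).valuation (g i) = 1 := by
    intro i
    simp only [g, map_prod]
    exact Finset.prod_eq_one fun j _ => hc2 i j
  have hgj : ∀ i j, i ≠ j → (O j).valuation (g i) < 1 := by
    intro i j hij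
    simp only [g, map_prod]
    rw [← Finset.mul_prod_erase Finset.univ _ (Finset.mem_univ j)]
    have h1 : ∏ x ∈ Finset.univ.erase j, (O j).valuation (c i x) ≤ 1 :=
      Finset.prod_le_one (fun _ _ => zero_le) fun x _ =>
        ((O j).valuation_le_one_iff _).2 (hc1 i x (O j) (hO j))
    exact lt_of_le_of_lt (mul_le_of_le_one_right' h1) (hc3 i j hij)
  obtain ⟨a, ha, haO⟩ := dep_mod h g hg
  obtain ⟨i0, hi0⟩ : ∃ i, a i ≠ 0 := by
    by_contra hcon
    push Not at hcon
    exact ha (funext hcon)
  have h1 : (O i0).valuation (∑ i, algebraMap k L (a i) * g i) = 1 := by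
    rw [← Finset.add_sum_erase Finset.univ _ (Finset.mem_univ i0)]
    have h2 : (O i0).valuation (algebraMap k L (a i0) * g i0) = 1 := by
      rw [map_mul, valuation_const (hO i0).1 hi0, hgi, one_mul]
    have h3 : (O i0).valuation (∑ i ∈ Finset.univ.erase i0, algebraMap k L (a i) * g i) < 1 := by
      refine Valuation.map_sum_lt _ one_ne_zero fun i hi => ?_
      have hne : i ≠ i0 := (Finset.mem_erase.1 hi).1
      rw [map_mul]
      have h4 : (O i0).valuation (algebraMap k L (a i)) ≤ 1 :=
        ((O i0).valuation_le_one_iff _).2 ((hO i0).1 _)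
      exact lt_of_le_of_lt (mul_le_of_le_one_left' h4) (hgj i i0 hne)
    rw [Valuation.map_add_eq_of_lt_left _ (by rw [h2]; exact h3), h2]
  have h2 := haO (O i0) (hO i0)
  rw [← (O i0).valuation_le_one_iff, map_mul, h1, one_mul] at h2
  exact absurd h2 (not_le.2 (one_lt_of_notMem (hO i0).2))

private theorem DimB_anti {t : L} (m : ℕ) : BB k t (m + 1) ≤ BB k t m := by
  intro x hx O hO
  have ht : t ≠ 0 := by
    rintro rfl
    exact hO.2 O.zero_mem
  have h1 : x * t ^ (m + 1) ∈ O := hx O hO
  have h2 : t⁻¹ ∈ O := (O.mem_or_inv_mem t).resolve_left hO.2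
  have h3 : x * t ^ m = x * t ^ (m + 1) * t⁻¹ := by
    rw [pow_succ]
    field_simp
  rw [h3]
  exact O.mul_mem _ _ h1 h2

private theorem DimB_step {A : Subalgebra k L} {t : L} {δ : ℕ} {b : Fin δ → L}
    (h : Setup k A t δ b) {W : Type} [AddCommGroup W] [Module k W] [FiniteDimensional k W]
    (θ : W →ₗ[k] L) (m : ℕ) :
    Module.finrank k (Submodule.comap θ (BB k t m)) ≤
      Module.finrank k (Submodule.comap θ (BB k t (m + 1))) + δ := by
  classical
  set U := Submodule.comap θ (BB k t m) with hU
  set U' := Submodule.comap θ (BB k t (m + 1)) with hU'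
  have hle : U' ≤ U := Submodule.comap_mono (DimB_anti m)
  let N : Submodule k U := Submodule.comap U.subtype U'
  have h1 := Submodule.finrank_quotient_add_finrank N
  have h2 : Module.finrank k N = Module.finrank k U' :=
    (Submodule.comapSubtypeEquivOfLe hle).finrank_eq
  have h3 : Module.finrank k (U ⧸ N) ≤ δ := by
    by_contra hcon
    rw [not_le] at hcon
    let B := Module.finBasis k (U ⧸ N)
    choose w hw using fun i : Fin (δ + 1) => Submodule.mkQ_surjective N (B (Fin.castLE hcon i))
    obtain ⟨c, hc, hcO⟩ := dep_mod h (fun i => θ (w i) * t ^ m) fun i O hO => (w i).2 O hO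
    have hmem : (∑ i, c i • w i) ∈ N := by
      show θ ((∑ i, c i • w i : U) : W) ∈ BB k t (m + 1)
      intro O hO
      have h4 := hcO O hO
      have h5 : θ ((∑ i, c i • w i : U) : W) * t ^ (m + 1) =
          (∑ i, algebraMap k L (c i) * (θ (w i) * t ^ m)) * t := by
        rw [Submodule.coe_sum, map_sum, Finset.sum_mul, Finset.sum_mul]
        refine Finset.sum_congr rfl fun i _ => ?_
        rw [Submodule.coe_smul, map_smul, Algebra.smul_def, pow_succ]
        ring
      rw [h5]
      exact h4
    have hzero : ∑ i, c i • B (Fin.castLE hcon i) = 0 := by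
      rw [← Submodule.ker_mkQ N, LinearMap.mem_ker, map_sum] at hmem
      rw [← hmem]
      refine Finset.sum_congr rfl fun i _ => ?_
      rw [map_smul, hw]
    have hli : LinearIndependent k fun i : Fin (δ + 1) => B (Fin.castLE hcon i) :=
      B.linearIndependent.comp _ (Fin.castLE_injective hcon)
    exact hc (funext fun i => (Fintype.linearIndependent_iff.1 hli) c hzero i)
  omega

theorem dim_bound {A : Subalgebra k L} {t : L} {δ : ℕ} {b : Fin δ → L} (h : Setup k A t δ b)
    {W : Type} [AddCommGroup W] [Module k W] [FiniteDimensional k W] (θ : W →ₗ[k] L)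
    (hθ : ∀ w, ∀ O ∈ Inf k t, θ w ∈ O) (m : ℕ) :
    Module.finrank k W ≤ Module.finrank k (Submodule.comap θ (BB k t m)) + δ * m := by
  induction m with
  | zero =>
    have h1 : Submodule.comap θ (BB k t 0) = ⊤ := by
      rw [eq_top_iff]
      intro w _ O hO
      show θ w * t ^ 0 ∈ O
      rw [pow_zero, mul_one]
      exact hθ w O hO
    rw [h1, finrank_top]
    omega
  | succ m ih =>
    have h2 := DimB_step h θ m
    rw [mul_add, mul_one]
    omega

end Pool.Agent.LGO
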