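import Mathlib
import Pool.Agent.LGO.G.Rank

/-!
# LGO, geometry, module G2: the residue field is the field of constants

`exists_res`: let `P ≠ 0` with `∑_i p_i(x) t^i = 0` (`Dep` with the roles exchanged: the coefficients
are polynomials in `x`, the variable is `t`).  Let `D = natDegree P`, so `p_D ≠ 0` and
`p_D(x) = - ∑_{i < D} p_i(x) t^(i - D)`: since `x ∈ O`, `p_i(x) ∈ O`, and `v(t⁻¹) < 1`, so
`v(p_D(x)) < 1` (if `D = 0` then `p_D(x) = 0`).  `k` is algebraically closed: `p_D = c ∏ (X - c_j)`
(`IsAlgClosed.splits`), so `v(x - c_j) < 1` for some `j`.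
`res_unique`: `c - c'` is a constant with `v < 1`, so it is `0`.
-/

namespace Pool.Agent.LGO

open Polynomial

variable {k L : Type} [Field k] [Field L] [Algebra k L]

private theorem aeval_mem {O : ValuationSubring L} (hO : Over k O) {x : L} (hx : x ∈ O)
    (p : k[X]) : aeval x p ∈ O := by
  rw [aeval_eq_sum_range]
  refine O.sum_mem fun i _ => ?_
  rw [Algebra.smul_def]
  exact O.mul_mem _ _ (hO _) (O.pow_mem hx i)

private theorem root_of_lt [IsAlgClosed k] {O : ValuationSubring L} (hO : Over k O) {x : L} :
    ∀ (n : ℕ) (p : k[X]), p.natDegree = n → p ≠ 0 → O.valuation (aeval x p) < 1 →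
      ∃ c : k, O.valuation (x - algebraMap k L c) < 1 := by
  intro n
  induction n with
  | zero =>
    intro p hp hp0 hlt
    exfalso
    rw [eq_C_of_natDegree_eq_zero hp] at hlt hp0
    rw [aeval_C] at hlt
    have hc : p.coeff 0 ≠ 0 := fun h => hp0 (by rw [h, C_0])
    rw [valuation_const hO hc] at hlt
    exact lt_irrefl _ hlt
  | succ n ih =>
    intro p hp hp0 hlt
    obtain ⟨c, hc⟩ := IsAlgClosed.exists_root p (by
      intro hd
      rw [degree_eq_natDegree hp0, hp] at hd
      norm_cast at hd)
    obtain ⟨q, hq⟩ := dvd_iff_isRoot.2 hc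
    by_cases h1 : O.valuation (x - algebraMap k L c) < 1
    · exact ⟨c, h1⟩
    · have hq0 : q ≠ 0 := by
        rintro rfl
        rw [mul_zero] at hq
        exact hp0 hq
      have hdeg : q.natDegree = n := by
        have h2 := congrArg natDegree hq
        rw [natDegree_mul (X_sub_C_ne_zero c) hq0, natDegree_X_sub_C, hp] at h2
        omega
      apply ih q hdeg hq0
      rw [hq, map_mul, map_sub, aeval_X, aeval_C, map_mul] at hlt
      by_contra h3
      rw [not_lt] at h1 h3
      exact absurd hlt (not_lt.2 (one_le_mul h1 h3))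

theorem exists_res [IsAlgClosed k] (hdep : Dep k L) {O : ValuationSubring L} (hO : Over k O)
    {t : L} (ht : t ∉ O) {x : L} (hx : x ∈ O) :
    ∃ c : k, O.valuation (x - algebraMap k L c) < 1 := by
  obtain ⟨P, hP, hE⟩ := hdep x t
  unfold ev2 at hE
  rw [eval₂_eq_sum_range, Finset.sum_range_succ] at hE
  have h1 := one_lt_of_notMem ht
  have ht0 : O.valuation t ≠ 0 := (zero_lt_one.trans h1).ne'
  have hlc : P.coeff P.natDegree ≠ 0 := by
    rw [coeff_natDegree]
    exact leadingCoeff_ne_zero.2 hP
  refine root_of_lt hO (x := x) _ (P.coeff P.natDegree) rfl hlc ?_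
  have hco : ∀ i, (aeval x : k[X] →ₐ[k] L).toRingHom (P.coeff i) = aeval x (P.coeff i) :=
    fun i => rfl
  simp only [hco] at hE
  have h2 : aeval x (P.coeff P.natDegree) * t ^ P.natDegree =
      -∑ i ∈ Finset.range P.natDegree, aeval x (P.coeff i) * t ^ i := by
    linear_combination hE
  have h3 : O.valuation (aeval x (P.coeff P.natDegree)) * O.valuation t ^ P.natDegree <
      O.valuation t ^ P.natDegree := by
    rw [← map_pow, ← map_mul, h2, Valuation.map_neg, map_pow]
    apply Valuation.map_sum_lt
    · exact pow_ne_zero _ ht0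
    · intro i hi
      rw [map_mul, map_pow]
      have h4 : O.valuation (aeval x (P.coeff i)) ≤ 1 :=
        (O.valuation_le_one_iff _).2 (aeval_mem hO hx _)
      have h5 : O.valuation t ^ i < O.valuation t ^ P.natDegree :=
        pow_lt_pow_right₀ h1 (Finset.mem_range.1 hi)
      calc O.valuation (aeval x (P.coeff i)) * O.valuation t ^ i
          ≤ 1 * O.valuation t ^ i := mul_le_mul_left h4 _
        _ = O.valuation t ^ i := one_mul _
        _ < _ := h5
  by_contra h4
  rw [not_lt] at h4
  have h5 : O.valuation t ^ P.natDegree ≤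
      O.valuation (aeval x (P.coeff P.natDegree)) * O.valuation t ^ P.natDegree := by
    calc O.valuation t ^ P.natDegree = 1 * O.valuation t ^ P.natDegree := (one_mul _).symm
      _ ≤ _ := mul_le_mul_left h4 _
  exact absurd h3 (not_lt.2 h5)

theorem res_unique {O : ValuationSubring L} (hO : Over k O) {x : L} {c c' : k}
    (h : O.valuation (x - algebraMap k L c) < 1) (h' : O.valuation (x - algebraMap k L c') < 1) :
    c = c' := by
  by_contra hne
  have h1 : c' - c ≠ 0 := sub_ne_zero.2 (Ne.symm hne)
  have h2 : algebraMap k L (c' - c) = (x - algebraMap k L c) - (x - algebraMap k L c') := by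
    rw [map_sub]
    ring
  have h3 := valuation_const hO h1
  rw [h2] at h3
  have h4 := O.valuation.map_sub_lt h h'
  rw [h3] at h4
  exact lt_irrefl _ h4

end Pool.Agent.LGO
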