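import Mathlib
import Pool.Agent.LGO.G.DimB
import Pool.Agent.LGO.G.Res
import Pool.Agent.LGO.G.CertEx

/-!
# LGO, geometry, module G6: a function with only one pole (elementary Riemann-Roch)

`exists_pole`.  Let `u = t⁻¹`, `O_1 = O` and `O_2, ..., O_r` the other elements of `Inf k t`
(`finite_inf`).  By `exists_sep` for `(O, O_j)` and a product there is `w`, in all `O'' ∈ Inf k t`, with
`v_O(w) = 1` and `v_j(w) < 1` for `j ≥ 2`; by `exists_pow_mul_mem` there is `s > 0` with `w^s t ∈ O_j`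
for all `j ≥ 2`.  By `exists_mul_pow_mem` there is `c` with `b_i u^c ∈ O''` for all `i` and all
`O'' ∈ Inf k t` (finite).  Let `D` be large, `m = D + c`.  Let `W = (Fin δ → degreeLT k (D+1)) × (Fin m → k)`,
of dimension `δ (D + 1) + m`, and `θ : W → L`, `θ(p, a) = u^m ∑ p_i(t) b_i - w^(s m) ∑_{i < m} a_i u^i`;
its values lie in all `O'' ∈ Inf k t` (`u^m p_i(t) b_i = (u^D p_i(t)) (u^c b_i)`).  By `dim_bound` the
space `W'` of the `(p, a)` with `θ(p, a) ∈ BB k t m` has dimension
`≥ δ (D + 1) + m - δ m = δ (D + 1) - (δ - 1)(D + c) ≥ 2` for `D ≥ δ c + 2` (`δ ≥ 1` because `L ≠ 0`).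
If `(p, a) ∈ W'` and `p = 0` then `a = 0`: otherwise let `i` be minimal with `a_i ≠ 0`; at `O`:
`v(w^(sm) (a_i u^i + ...)) = v(u)^i` but `θ t^m ∈ O` gives `v(θ) ≤ v(u)^m < v(u)^i`.  So the
`f = ∑ p_i(t) b_i` for `(p, a) ∈ W'` form a space of dimension at least `2` (`Setup.indep`), so one of them, `F`,
is not a constant.  `F ∈ A`.  For `j ≥ 2`:
`F = (w^s t)^m ∑ a_i u^i + θ t^m ∈ O_j`.  If `O'` is over `k` and `t ∈ O'` then `F ∈ O'`
(`Setup.int`).  So `F ∉ O'`, `Over k O'` implies `O' = O`.  `F` is transcendental (not a constant, `k`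
algebraically closed), so `F ∉ O'` for some place `O'` (`exists_place`), and `O' = O`.
-/

namespace Pool.Agent.LGO

open Polynomial

variable {k L : Type} [Field k] [Field L] [Algebra k L]

private theorem Pole_inv_mem {O : ValuationSubring L} {t : L} (ht : t ∉ O) : t⁻¹ ∈ O :=
  (O.mem_or_inv_mem t).resolve_left ht

private theorem Pole_inv_lt {O : ValuationSubring L} {t : L} (ht : t ∉ O) :
    O.valuation t⁻¹ < 1 := by
  rw [map_inv₀]
  exact inv_lt_one_of_one_lt₀ (one_lt_of_notMem ht)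

private theorem Pole_ne_zero {O : ValuationSubring L} {t : L} (ht : t ∉ O) : t ≠ 0 := by
  rintro rfl
  exact ht O.zero_mem

private theorem Pole_mem_of_deg {O : ValuationSubring L} (hO : Over k O) {t : L} (ht : t ∉ O)
    {p : k[X]} {D : ℕ} (hp : p.natDegree ≤ D) : (t⁻¹) ^ D * aeval t p ∈ O := by
  by_cases h0 : p = 0
  · rw [h0, map_zero, mul_zero]
    exact O.zero_mem
  rw [← O.valuation_le_one_iff, map_mul, map_pow, map_inv₀, valuation_aeval hO ht h0]
  have h1 : O.valuation t ≠ 0 := (Valuation.ne_zero_iff _).2 (Pole_ne_zero ht)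
  have h2 : 1 ≤ O.valuation t := (one_lt_of_notMem ht).le
  have h3 : O.valuation t ^ p.natDegree ≤ O.valuation t ^ D := pow_le_pow_right₀ h2 hp
  rw [inv_pow]
  calc (O.valuation t ^ D)⁻¹ * O.valuation t ^ p.natDegree
      ≤ (O.valuation t ^ D)⁻¹ * O.valuation t ^ D := by gcongr
    _ = 1 := inv_mul_cancel₀ (pow_ne_zero _ h1)

private theorem Pole_aeval_mem {A : Subalgebra k L} {t : L} (ht : t ∈ A) (p : k[X]) :
    aeval t p ∈ A := by
  rw [aeval_eq_sum_range]
  exact A.sum_mem fun i _ => A.smul_mem (A.pow_mem ht i) _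

/-- a weight which is one at `O` and small at the other poles of `t` -/
private theorem Pole_exists_w (hdep : Dep k L) {t : L} {O : ValuationSubring L} (hO : O ∈ Inf k t)
    (hfin : (Inf k t).Finite) :
    ∃ w : L, (∀ O' ∈ Inf k t, w ∈ O') ∧ O.valuation w = 1 ∧
      ∀ O' ∈ Inf k t, O' ≠ O → O'.valuation w < 1 := by
  classical
  have hsep : ∀ O' : ValuationSubring L, ∃ b : L, (O' ∈ Inf k t → O' ≠ O →
      (∀ O'' ∈ Inf k t, b ∈ O'') ∧ O.valuation b = 1 ∧ O'.valuation b < 1) := by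
    intro O'
    by_cases h1 : O' ∈ Inf k t
    · by_cases h2 : O' = O
      · exact ⟨0, fun _ h => absurd h2 h⟩
      · obtain ⟨b, hb⟩ := exists_sep hdep hO h1 (Ne.symm h2)
        exact ⟨b, fun _ _ => hb⟩
    · exact ⟨0, fun h => absurd h h1⟩
  choose b hb using hsep
  set S : Finset (ValuationSubring L) := hfin.toFinset.erase O with hS
  have hmem : ∀ O' ∈ S, O' ∈ Inf k t ∧ O' ≠ O := by
    intro O' h
    rw [hS, Finset.mem_erase, Set.Finite.mem_toFinset] at h
    exact ⟨h.2, h.1⟩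
  refine ⟨∏ O' ∈ S, b O', ?_, ?_, ?_⟩
  · intro O'' h
    exact O''.toSubring.prod_mem fun O' h' => (hb O' (hmem O' h').1 (hmem O' h').2).1 O'' h
  · rw [map_prod]
    exact Finset.prod_eq_one fun O' h' => (hb O' (hmem O' h').1 (hmem O' h').2).2.1
  · intro O' h1 h2
    have h3 : O' ∈ S := by
      rw [hS, Finset.mem_erase, Set.Finite.mem_toFinset]
      exact ⟨h2, h1⟩
    rw [← Finset.mul_prod_erase _ _ h3, map_mul]
    have h4 : ∏ x ∈ S.erase O', b x ∈ O' := by
      refine O'.toSubring.prod_mem fun O'' h' => ?_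
      have h'' := Finset.mem_of_mem_erase h'
      exact (hb O'' (hmem O'' h'').1 (hmem O'' h'').2).1 O' h1
    rw [← O'.valuation_le_one_iff] at h4
    exact mul_lt_one_of_lt_of_le (hb O' h1 h2).2.2 h4

private theorem Pole_exists_s (hdep : Dep k L) {t w : L} {O : ValuationSubring L}
    (hfin : (Inf k t).Finite) (hw : ∀ O' ∈ Inf k t, O' ≠ O → O'.valuation w < 1) :
    ∃ s : ℕ, ∀ O' ∈ Inf k t, O' ≠ O → w ^ s * t ∈ O' := by
  classical
  have hs : ∀ O' : ValuationSubring L, ∃ s : ℕ, (O' ∈ Inf k t → O' ≠ O →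
      ∀ s', s ≤ s' → w ^ s' * t ∈ O') := by
    intro O'
    by_cases h1 : O' ∈ Inf k t
    · by_cases h2 : O' = O
      · exact ⟨0, fun _ h => absurd h2 h⟩
      · obtain ⟨s, _, hs⟩ := exists_pow_mul_mem hdep h1.1 h1.2 (hw O' h1 h2)
        exact ⟨s, fun _ _ => hs⟩
    · exact ⟨0, fun h => absurd h h1⟩
  choose s hs using hs
  refine ⟨hfin.toFinset.sup s, fun O' h1 h2 => hs O' h1 h2 _ ?_⟩
  exact Finset.le_sup (f := s) (hfin.mem_toFinset.2 h1)

private theorem Pole_exists_c (hdep : Dep k L) {t : L} (hfin : (Inf k t).Finite) {δ : ℕ}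
    (b : Fin δ → L) : ∃ c : ℕ, ∀ i, ∀ O' ∈ Inf k t, b i * (t⁻¹) ^ c ∈ O' := by
  classical
  have hc : ∀ (i : Fin δ) (O' : ValuationSubring L), ∃ c : ℕ, (O' ∈ Inf k t →
      ∀ c', c ≤ c' → b i * (t⁻¹) ^ c' ∈ O') := by
    intro i O'
    by_cases h1 : O' ∈ Inf k t
    · obtain ⟨c, hc⟩ := exists_mul_pow_mem hdep h1.1 h1.2 (b i)
      exact ⟨c, fun _ => hc⟩
    · exact ⟨0, fun h => absurd h h1⟩
  choose c hc using hc
  refine ⟨Finset.univ.sup fun i => hfin.toFinset.sup (c i), fun i O' h1 => hc i O' h1 _ ?_⟩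
  exact (Finset.le_sup (f := c i) (hfin.mem_toFinset.2 h1)).trans
    (Finset.le_sup (f := fun i => hfin.toFinset.sup (c i)) (Finset.mem_univ i))

private theorem Pole_transc [IsAlgClosed k] {F : L} (hF : ∀ c : k, algebraMap k L c ≠ F) :
    Transcendental k F := by
  intro halg
  have hint : IsIntegral k F := halg.isIntegral
  have h1 := IsAlgClosed.degree_eq_one_of_irreducible k (minpoly.irreducible hint)
  obtain ⟨c, hc⟩ := minpoly.mem_range_of_degree_eq_one k F h1
  exact hF c hc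

/-- the lower bound at `O` for the part in the constants -/
private theorem Pole_val_ge {O : ValuationSubring L} (hO : Over k O) {t : L} (ht : t ∉ O) {m : ℕ}
    (a : Fin m → k) (ha : a ≠ 0) :
    O.valuation t⁻¹ ^ m < O.valuation (∑ i : Fin m, algebraMap k L (a i) * (t⁻¹) ^ (i : ℕ)) := by
  have ht0 : t ≠ 0 := Pole_ne_zero ht
  have hm : 0 < m := by
    rcases Nat.eq_zero_or_pos m with h | h
    · subst h
      exact absurd (Subsingleton.elim a 0) ha
    · exact h
  set q : k[X] := ∑ i : Fin m, C (a i) * X ^ (m - 1 - (i : ℕ)) with hq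
  have hqc : ∀ j : Fin m, q.coeff (m - 1 - (j : ℕ)) = a j := by
    intro j
    rw [hq, finsetSum_coeff, Finset.sum_eq_single j]
    · rw [coeff_C_mul, coeff_X_pow, if_pos rfl, mul_one]
    · intro i _ hij
      rw [coeff_C_mul, coeff_X_pow, if_neg, mul_zero]
      intro h
      apply hij
      apply Fin.ext
      have h1 := i.2
      have h2 := j.2
      omega
    · intro h
      exact absurd (Finset.mem_univ j) h
  have hq0 : q ≠ 0 := by
    intro h
    apply ha
    funext j
    rw [← hqc j, h, coeff_zero]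
    rfl
  have hsum : (∑ i : Fin m, algebraMap k L (a i) * (t⁻¹) ^ (i : ℕ)) =
      (t⁻¹) ^ (m - 1) * aeval t q := by
    rw [hq, map_sum, Finset.mul_sum]
    refine Finset.sum_congr rfl fun i _ => ?_
    rw [map_mul, aeval_C, map_pow, aeval_X]
    have h1 : m - 1 = (i : ℕ) + (m - 1 - (i : ℕ)) := by
      have := i.2
      omega
    have h2 : (t⁻¹) ^ (m - 1) = (t⁻¹) ^ (i : ℕ) * (t⁻¹) ^ (m - 1 - (i : ℕ)) := by
      rw [← pow_add, ← h1]
    have h3 : (t⁻¹) ^ (m - 1 - (i : ℕ)) * t ^ (m - 1 - (i : ℕ)) = 1 := by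
      rw [← mul_pow, inv_mul_cancel₀ ht0, one_pow]
    rw [h2]
    linear_combination (-(algebraMap k L (a i)) * (t⁻¹) ^ (i : ℕ)) * h3
  rw [hsum, map_mul, valuation_aeval hO ht hq0, map_pow]
  have h1 : O.valuation t⁻¹ < 1 := Pole_inv_lt ht
  have h2 : 0 < O.valuation t⁻¹ := by
    rw [zero_lt_iff]
    exact (Valuation.ne_zero_iff _).2 (inv_ne_zero ht0)
  have h3 : 1 ≤ O.valuation t ^ q.natDegree := one_le_pow₀ (one_lt_of_notMem ht).le
  calc O.valuation t⁻¹ ^ m < O.valuation t⁻¹ ^ (m - 1) :=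
        pow_lt_pow_right_of_lt_one₀ h2 h1 (by omega)
    _ = O.valuation t⁻¹ ^ (m - 1) * 1 := (mul_one _).symm
    _ ≤ O.valuation t⁻¹ ^ (m - 1) * O.valuation t ^ q.natDegree := by gcongr

theorem exists_pole [IsAlgClosed k] (hdep : Dep k L) {A : Subalgebra k L} {t : L} {δ : ℕ}
    {b : Fin δ → L} (h : Setup k A t δ b) {O : ValuationSubring L} (hO : O ∈ Inf k t) :
    ∃ F ∈ A, Transcendental k F ∧ F ∉ O ∧
      ∀ O' : ValuationSubring L, Over k O' → F ∉ O' → O' = O := by
  classical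
  have hfin := finite_inf hdep h
  obtain ⟨w, hwm, hwO, hwj⟩ := Pole_exists_w hdep hO hfin
  obtain ⟨s, hs⟩ := Pole_exists_s (O := O) hdep hfin hwj
  obtain ⟨c, hc⟩ := Pole_exists_c hdep hfin b
  have ht0 : t ≠ 0 := Pole_ne_zero hO.2
  set D : ℕ := δ * c + 2 with hD
  set m : ℕ := D + c with hm
  -- the map
  let f : ((Fin δ → degreeLT k (D + 1)) × (Fin m → k)) →ₗ[k] L :=
    { toFun := fun pa => ∑ i, aeval t (pa.1 i : k[X]) * b i
      map_add' := by
        intro x y
        rw [← Finset.sum_add_distrib]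
        refine Finset.sum_congr rfl fun i _ => ?_
        simp [add_mul]
      map_smul' := by
        intro r x
        rw [RingHom.id_apply, Finset.smul_sum]
        refine Finset.sum_congr rfl fun i _ => ?_
        simp }
  let g : ((Fin δ → degreeLT k (D + 1)) × (Fin m → k)) →ₗ[k] L :=
    { toFun := fun pa => ∑ i : Fin m, algebraMap k L (pa.2 i) * (t⁻¹) ^ (i : ℕ)
      map_add' := by
        intro x y
        rw [← Finset.sum_add_distrib]
        refine Finset.sum_congr rfl fun i _ => ?_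
        simp [add_mul]
      map_smul' := by
        intro r x
        rw [RingHom.id_apply, Finset.smul_sum]
        refine Finset.sum_congr rfl fun i _ => ?_
        simp [Algebra.smul_def, mul_assoc] }
  let θ : ((Fin δ → degreeLT k (D + 1)) × (Fin m → k)) →ₗ[k] L :=
    (LinearMap.mulLeft k ((t⁻¹) ^ m)) ∘ₗ f - (LinearMap.mulLeft k (w ^ (s * m))) ∘ₗ g
  have hθa : ∀ pa, θ pa = (t⁻¹) ^ m * f pa - w ^ (s * m) * g pa := fun pa => rfl
  have hfd : ∀ pa, f pa = ∑ i, aeval t (pa.1 i : k[X]) * b i := fun pa => rfl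
  have hgd : ∀ pa, g pa = ∑ i : Fin m, algebraMap k L (pa.2 i) * (t⁻¹) ^ (i : ℕ) :=
    fun pa => rfl
  have hga : ∀ pa, ∀ O' ∈ Inf k t, g pa ∈ O' := by
    intro pa O' hO'
    rw [hgd]
    refine O'.toSubring.sum_mem fun i _ => ?_
    exact O'.mul_mem _ _ (hO'.1 _) (O'.toSubring.pow_mem (Pole_inv_mem hO'.2) _)
  have hθ : ∀ pa, ∀ O' ∈ Inf k t, θ pa ∈ O' := by
    intro pa O' hO'
    rw [hθa]
    refine O'.sub_mem ?_ ?_
    · have h1 : (t⁻¹) ^ m * f pa =
          ∑ i, ((t⁻¹) ^ D * aeval t (pa.1 i : k[X])) * (b i * (t⁻¹) ^ c) := by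
        have h2 : (t⁻¹) ^ m = (t⁻¹) ^ D * (t⁻¹) ^ c := pow_add _ _ _
        rw [hfd, h2, Finset.mul_sum]
        refine Finset.sum_congr rfl fun i _ => ?_
        ring
      rw [h1]
      refine O'.toSubring.sum_mem fun i _ => ?_
      refine O'.mul_mem _ _ (Pole_mem_of_deg hO'.1 hO'.2 ?_) (hc i O' hO')
      have h2 := (pa.1 i).2
      rw [mem_degreeLT] at h2
      have h3 : ((pa.1 i : k[X])).natDegree < D + 1 ∨ (pa.1 i : k[X]) = 0 := by
        by_cases h4 : (pa.1 i : k[X]) = 0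
        · exact Or.inr h4
        · left
          exact (natDegree_lt_iff_degree_lt h4).2 h2
      rcases h3 with h3 | h3
      · omega
      · rw [h3, natDegree_zero]; omega
    · exact O'.mul_mem _ _ (O'.toSubring.pow_mem (hwm O' hO') _) (hga pa O' hO')
  have hdim := dim_bound h θ hθ m
  have hrank : Module.finrank k ((Fin δ → degreeLT k (D + 1)) × (Fin m → k)) =
      δ * (D + 1) + m := by
    rw [Module.finrank_prod, Module.finrank_pi_fintype, Module.finrank_fin_fun]
    have h1 : Module.finrank k (degreeLT k (D + 1)) = D + 1 := by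
      rw [(degreeLTEquiv k (D + 1)).finrank_eq, Module.finrank_fin_fun]
    simp [h1]
  rw [hrank] at hdim
  set W' := Submodule.comap θ (BB k t m) with hW'
  have hge : 2 ≤ Module.finrank k W' := by
    have h1 : δ * (D + 1) + m + δ * c = δ * m + (D + c + δ) := by
      rw [hm]; ring
    have h2 : D = δ * c + 2 := hD
    nlinarith
  -- injectivity
  have hinj : ∀ pa ∈ W', f pa = 0 → pa = 0 := by
    intro pa hpa hf
    have hp : pa.1 = 0 := by
      have h1 := h.indep (fun i => (pa.1 i : k[X])) hf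
      funext i
      exact Subtype.ext (congrFun h1 i)
    by_contra hne
    have ha : pa.2 ≠ 0 := by
      intro ha
      exact hne (Prod.ext hp ha)
    have h2 := Pole_val_ge hO.1 hO.2 pa.2 ha
    have h3 : θ pa * t ^ m ∈ O := hpa O hO
    rw [hθa, hf, mul_zero, zero_sub, ← O.valuation_le_one_iff, map_mul, Valuation.map_neg,
      map_mul, map_pow, hwO, one_pow, one_mul, map_pow] at h3
    have h4 : O.valuation t ≠ 0 := (Valuation.ne_zero_iff _).2 ht0
    have h5 : O.valuation (g pa) ≤ O.valuation t⁻¹ ^ m := by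
      calc O.valuation (g pa) = O.valuation (g pa) * O.valuation t ^ m * (O.valuation t ^ m)⁻¹ := by
            rw [mul_assoc, mul_inv_cancel₀ (pow_ne_zero _ h4), mul_one]
        _ ≤ 1 * (O.valuation t ^ m)⁻¹ := by gcongr
        _ = O.valuation t⁻¹ ^ m := by rw [one_mul, map_inv₀, inv_pow]
    exact absurd h2 (not_lt.2 h5)
  -- a nonconstant element
  obtain ⟨pa, hpa, hpaF⟩ : ∃ pa ∈ W', ∀ r : k, algebraMap k L r ≠ f pa := by
    by_contra hcon
    push Not at hcon
    have h1 : ∀ x : W', (f ∘ₗ W'.subtype) x ∈ Submodule.span k {(1 : L)} := by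
      intro x
      obtain ⟨r, hr⟩ := hcon x.1 x.2
      rw [Submodule.mem_span_singleton]
      exact ⟨r, by rw [Algebra.smul_def, mul_one]; exact hr⟩
    have h2 : Function.Injective ((f ∘ₗ W'.subtype).codRestrict _ h1) := by
      intro x y hxy
      have h3 : f x.1 = f y.1 := congrArg Subtype.val hxy
      have h4 := hinj (x.1 - y.1) (W'.sub_mem x.2 y.2) (by rw [map_sub, h3, sub_self])
      exact Subtype.ext (sub_eq_zero.1 h4)
    have h3 := LinearMap.finrank_le_finrank_of_injective h2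
    have h4 : Module.finrank k (Submodule.span k {(1 : L)}) ≤ 1 := by
      rw [finrank_span_singleton one_ne_zero]
    omega
  refine ⟨f pa, ?_, Pole_transc hpaF, ?_⟩
  · rw [hfd]
    exact A.sum_mem fun i _ => A.mul_mem (Pole_aeval_mem h.tA _) (h.bA i)
  have hFA : f pa ∈ A := by
    rw [hfd]
    exact A.sum_mem fun i _ => A.mul_mem (Pole_aeval_mem h.tA _) (h.bA i)
  have huniq : ∀ O' : ValuationSubring L, Over k O' → f pa ∉ O' → O' = O := by
    intro O' hO' hF
    by_contra hne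
    have ht : t ∉ O' := fun ht => hF (h.int _ hFA O' hO' ht)
    have hO'' : O' ∈ Inf k t := ⟨hO', ht⟩
    apply hF
    have h1 : f pa = θ pa * t ^ m + (w ^ s * t) ^ m * g pa := by
      rw [hθa, mul_pow, ← pow_mul]
      have h2 : (t⁻¹) ^ m * t ^ m = 1 := by
        rw [← mul_pow, inv_mul_cancel₀ ht0, one_pow]
      linear_combination (-(f pa)) * h2
    rw [h1]
    exact O'.add_mem _ _ (hpa O' hO'')
      (O'.mul_mem _ _ (O'.toSubring.pow_mem (hs O' hO'' hne) _) (hga pa O' hO''))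
  refine ⟨?_, huniq⟩
  obtain ⟨O', h1, h2⟩ := exists_place (Pole_transc hpaF)
  rw [← huniq O' h1 h2]
  exact h2

/-- a function which vanishes at the only pole of `F` is bounded by a negative power of `F` -/
theorem exists_cert (hdep : Dep k L) {F : L} {O : ValuationSubring L} (hO : Over k O)
    (hF : F ∉ O) (hF' : ∀ O' : ValuationSubring L, Over k O' → F ∉ O' → O' = O) {G : L}
    (hG : O.valuation G < 1) : ∃ m : ℕ, 0 < m ∧ (G ≠ 0 → Cert k F (F * G ^ m)) := by
  obtain ⟨s, hs0, hs⟩ := exists_pow_mul_mem hdep hO hF hG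
  refine ⟨s, hs0, fun hG0 => ?_⟩
  have hF0 : F ≠ 0 := Pole_ne_zero hF
  rcases cert_or_place (k := k) hF0 (mul_ne_zero hF0 (pow_ne_zero s hG0)) with h | ⟨O', h1, h2, h3⟩
  · exact h
  · exfalso
    rw [hF' O' h1 h2] at h3
    apply h3
    rw [mul_comm]
    exact hs s le_rfl

end Pool.Agent.LGO
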