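import Mathlib
import Pool.Agent.LGO.G.Defs

/-!
# LGO, geometry, module G8: existence of the setup

`A = k[ψ_1, ..., ψ_n]`.  Noether normalization (`Algebra.exists_integral_inj_algHom_of_fg` or similar in
`Mathlib/RingTheory/NoetherNormalization.lean`): `s` and an injective integral
`g : MvPolynomial (Fin s) k →ₐ[k] A`.  `s ≤ 1` by `Dep` (`g X_0, g X_1` would be algebraically independent),
`s ≠ 0` because `ψ a` is transcendental.  `t` = the image of `X_0` in `L`: `Transcendental k t`, every element
of `A` is integral over `k[t]`; so if `O` is a valuation ring over `k` with `t ∈ O` then `A ⊆ O`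
(`O` is integrally closed in `L`).
`A` is a finite `k[t]`-module (finitely generated and integral), so `L = Frac A = k(t) A` is a finite
dimensional `k(t)`-vector space (`IntermediateField.adjoin k {t}`) spanned by `A`; choose a basis
`b_1, ..., b_δ` in `A`.  `indep` and `span` follow by clearing denominators (every element of `k(t)` is
`p(t) / q(t)`).
(Every element of `L` is `N / D` with `N, D ∈ A`: `IntermediateField.mem_adjoin_range_iff` or
`IntermediateField.mem_adjoin_iff`.)
-/

namespace Pool.Agent.LGO

open Polynomial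

variable {k L : Type} [Field k] [Field L] [Algebra k L]

private lemma SetupEx_dep (hdep : Dep k L) {s : ℕ} {y : Fin s → L} (hy : AlgebraicIndependent k y) :
    s ≤ 1 := by
  by_contra hs
  push Not at hs
  let i0 : Fin s := ⟨0, by omega⟩
  let i1 : Fin s := ⟨1, by omega⟩
  obtain ⟨P, hP, hev⟩ := hdep (y i0) (y i1)
  have h0 : Transcendental k (y i0) := hy.transcendental i0
  have h1 : Transcendental (Algebra.adjoin k (y '' {i0})) (y i1) :=
    hy.transcendental_adjoin (by simp [i0, i1])
  let c : Algebra.adjoin k (y '' {i0}) := ⟨y i0, Algebra.subset_adjoin ⟨i0, rfl, rfl⟩⟩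
  let φ : k[X] →+* Algebra.adjoin k (y '' {i0}) := (aeval c : k[X] →ₐ[k] _).toRingHom
  have hφ : ∀ q : k[X], ((φ q : Algebra.adjoin k (y '' {i0})) : L) = aeval (y i0) q := by
    intro q
    have := Polynomial.aeval_algHom_apply (Algebra.adjoin k (y '' {i0})).val c q
    exact this.symm
  have hφi : Function.Injective φ := by
    rw [injective_iff_map_eq_zero]
    intro q hq
    have h2 : aeval (y i0) q = 0 := by
      rw [← hφ q, hq]
      rfl
    by_contra hq0
    exact h0 ⟨q, hq0, h2⟩
  refine h1 ⟨P.map φ, (Polynomial.map_ne_zero_iff hφi).2 hP, ?_⟩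
  rw [Polynomial.aeval_def, Polynomial.eval₂_map]
  have h3 : (algebraMap (Algebra.adjoin k (y '' {i0})) L).comp φ =
      (aeval (y i0) : k[X] →ₐ[k] L).toRingHom := by
    ext q
    · exact hφ _
    · exact hφ _
  rw [h3]
  exact hev

theorem exists_setup [IsAlgClosed k] (hdep : Dep k L) {n : ℕ} (ψ : Fin n → L)
    (hgen : IntermediateField.adjoin k (Set.range ψ) = ⊤) {a : Fin n}
    (ha : Transcendental k (ψ a)) :
    ∃ (t : L) (δ : ℕ) (b : Fin δ → L), Setup k (Algebra.adjoin k (Set.range ψ)) t δ b := by
  classical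
  set A : Subalgebra k L := Algebra.adjoin k (Set.range ψ) with hA
  have hψA : ∀ i, ψ i ∈ A := fun i => Algebra.subset_adjoin ⟨i, rfl⟩
  have hft : Algebra.FiniteType k A := by
    rw [← Subalgebra.fg_iff_finiteType]
    exact ⟨Finset.univ.image ψ, by rw [Finset.coe_image, Finset.coe_univ, Set.image_univ]⟩
  obtain ⟨s, g, ginj, gfin⟩ := exists_finite_inj_algHom_of_fg k A
  have hy : AlgebraicIndependent k (fun i : Fin s => (g (MvPolynomial.X i) : L)) := by
    have e1 : (MvPolynomial.aeval fun i : Fin s => (g (MvPolynomial.X i) : L)) = A.val.comp g :=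
      MvPolynomial.algHom_ext fun i => by simp
    show Function.Injective (MvPolynomial.aeval fun i : Fin s => (g (MvPolynomial.X i) : L))
    rw [e1]
    exact Subtype.val_injective.comp ginj
  have hs1 : s ≤ 1 := SetupEx_dep hdep hy
  have hs0 : s ≠ 0 := by
    intro h0
    subst h0
    have i1 : (algebraMap k (MvPolynomial (Fin 0) k)).IsIntegral :=
      RingHom.isIntegral_of_surjective _ (MvPolynomial.C_surjective (Fin 0))
    have i2 : (g.toRingHom.comp (algebraMap k (MvPolynomial (Fin 0) k))).IsIntegral :=
      i1.trans _ _ (RingHom.Finite.to_isIntegral gfin)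
    have e1 : g.toRingHom.comp (algebraMap k (MvPolynomial (Fin 0) k)) = algebraMap k A :=
      RingHom.ext fun c => g.commutes c
    rw [e1] at i2
    have i3 : IsIntegral k (⟨ψ a, hψA a⟩ : A) := i2 _
    have i4 : IsIntegral k (ψ a) := i3.map A.val
    exact ha i4.isAlgebraic
  obtain rfl : s = 1 := by omega
  let e : k[X] ≃ₐ[k] MvPolynomial (Fin 1) k := (MvPolynomial.uniqueAlgEquiv k (Fin 1)).symm
  let h : k[X] →ₐ[k] A := g.comp e.toAlgHom
  have hinj : Function.Injective h := ginj.comp e.injective
  have hfin : h.toRingHom.Finite :=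
    RingHom.Finite.comp gfin (RingHom.Finite.of_surjective e.toAlgHom.toRingHom e.surjective)
  let t : L := (h X : L)
  have ht : ∀ p : k[X], (h p : L) = aeval t p := by
    intro p
    have e1 : A.val.comp h = aeval t := Polynomial.algHom_ext (by simp [t])
    exact DFunLike.congr_fun e1 p
  let _ : Algebra k[X] A := h.toRingHom.toAlgebra
  have : Module.Finite k[X] A := hfin
  have hmap : ∀ p : k[X], algebraMap k[X] A p = h p := fun p => rfl
  have : Module.IsTorsionFree k[X] A := by
    rw [Module.isTorsionFree_iff_algebraMap_injective]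
    exact hinj
  obtain ⟨δ, bb⟩ : Σ δ : ℕ, Module.Basis (Fin δ) k[X] A := Module.basisOfFiniteTypeTorsionFree'
  have hsum : ∀ p : Fin δ → k[X],
      ((∑ i, p i • bb i : A) : L) = ∑ i, aeval t (p i) * (bb i : L) := by
    intro p
    rw [AddSubmonoidClass.coe_finsetSum]
    refine Finset.sum_congr rfl fun i _ => ?_
    rw [Algebra.smul_def, hmap]
    show (h (p i) : L) * (bb i : L) = _
    rw [ht]
  refine ⟨t, δ, fun i => (bb i : L), ?_, (h X).2, fun i => (bb i).2, ?_, ?_, ?_⟩
  · rintro ⟨p, hp, hp0⟩
    rw [← ht p] at hp0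
    have h1 : h p = 0 := Subtype.ext hp0
    exact hp (hinj (h1.trans (map_zero h).symm))
  · intro x hx O hO htO
    have hint : h.toRingHom.IsIntegral := RingHom.Finite.to_isIntegral hfin
    obtain ⟨P, hP, hPx⟩ := hint ⟨x, hx⟩
    -- the map `k[X] → O`
    have hmem : ∀ p : k[X], aeval t p ∈ O := by
      intro p
      rw [Polynomial.aeval_eq_sum_range]
      refine O.toSubring.sum_mem fun i _ => ?_
      rw [Algebra.smul_def]
      exact O.mul_mem _ _ (hO _) (O.toSubring.pow_mem htO i)
    let φ : k[X] →+* O := (aeval t : k[X] →ₐ[k] L).toRingHom.codRestrict O.toSubring hmem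
    have hcomp : (algebraMap O L).comp φ = (aeval t : k[X] →ₐ[k] L).toRingHom := by
      refine RingHom.ext fun p => rfl
    have hxint : IsIntegral O x := by
      refine ⟨P.map φ, hP.map φ, ?_⟩
      rw [Polynomial.eval₂_map, hcomp]
      have e2 : (aeval t : k[X] →ₐ[k] L).toRingHom = (A.val.toRingHom).comp h.toRingHom := by
        refine RingHom.ext fun p => ?_
        exact (ht p).symm
      rw [e2]
      have e3 := congrArg A.val.toRingHom hPx
      rw [Polynomial.hom_eval₂, map_zero] at e3
      exact e3
    obtain ⟨w, hw⟩ := IsIntegrallyClosed.isIntegral_iff.1 hxint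
    rw [← hw]
    exact w.2
  · intro p hp
    have h1 : (∑ i, p i • bb i : A) = 0 := by
      refine Subtype.ext ?_
      rw [hsum p]
      exact hp
    have h2 := Fintype.linearIndependent_iff.1 bb.linearIndependent p h1
    exact funext h2
  · intro x
    have hx : x ∈ IntermediateField.adjoin k (Set.range ψ) := by rw [hgen]; trivial
    obtain ⟨r, d, hrd⟩ := (IntermediateField.mem_adjoin_range_iff k ψ x).1 hx
    have hmemA : ∀ q : MvPolynomial (Fin n) k, MvPolynomial.aeval ψ q ∈ A := by
      intro q
      rw [hA, Algebra.adjoin_range_eq_range_aeval]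
      exact ⟨q, rfl⟩
    by_cases hd : MvPolynomial.aeval ψ d = 0
    · refine ⟨1, 0, one_ne_zero, ?_⟩
      rw [hrd, hd, div_zero, mul_zero]
      simp
    · let D : A := ⟨MvPolynomial.aeval ψ d, hmemA d⟩
      let N : A := ⟨MvPolynomial.aeval ψ r, hmemA r⟩
      have hD0 : D ≠ 0 := fun h0 => hd (congrArg Subtype.val h0)
      have hDalg : IsAlgebraic k[X] D := (Algebra.IsIntegral.isIntegral D).isAlgebraic
      obtain ⟨q, hq, D', hD'⟩ := hDalg.exists_nonzero_dvd (mem_nonZeroDivisors_of_ne_zero hD0)
      refine ⟨q, fun i => bb.repr (N * D') i, hq, ?_⟩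
      rw [← hsum]
      rw [bb.sum_repr (N * D')]
      have e1 : (aeval t q : L) = (MvPolynomial.aeval ψ d) * (D' : L) := by
        rw [← ht q]
        have := congrArg Subtype.val hD'
        exact this
      show aeval t q * x = (MvPolynomial.aeval ψ r) * (D' : L)
      rw [e1, hrd]
      field_simp

end Pool.Agent.LGO
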