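import Mathlib
import Pool.Agent.LGO.G.Defs
import Pool.Agent.Hhelper14.ZPL.KClosed

/-!
# LGO, geometry, module G9: the place defined by a sequence of points

Let `U` be a nonprincipal ultrafilter on `ℕ` (`Filter.hyperfilter ℕ`, it is finer than `atTop`).
`O = {x | ∃ N D, aeval ψ D ≠ 0 ∧ x = aeval ψ N / aeval ψ D ∧ ∃ C, ∀ᶠ m in U, ‖N(y m) / D(y m)‖ ≤ C}`.
Every element of `L` has the form `aeval ψ N / aeval ψ D` (`hgen`), and two representations of the same
element have the same values at `y m` for all large `m` (`h0` for `N D' - N' D`, and `h1` for `D D'`).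
Sums, products, negatives, constants are clear; for every `x ≠ 0`, `x` or `x⁻¹` has values bounded by
`1` along the ultrafilter (`Ultrafilter.em`), so `O` is a valuation subring.
If the values tend to `0` then the values of the inverse tend to infinity in norm, so they are not
bounded along `U`, so the inverse is not in `O` and the valuation is `< 1` (if `x = 0`: trivial).
-/

namespace Pool.Agent.LGO

open MvPolynomial Filter Topology Pool.Agent.Hhelper14.ZPL

/-- every element is a quotient of values of polynomials -/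
theorem ultra_rep {L : Type} [Field L] [Algebra Qb L] (ψ : Fin 3 → L)
    (hgen : IntermediateField.adjoin Qb (Set.range ψ) = ⊤) (x : L) :
    ∃ N D : MvPolynomial (Fin 3) Qb, aeval ψ D ≠ 0 ∧ x = aeval ψ N / aeval ψ D := by
  have hx : x ∈ IntermediateField.adjoin Qb (Set.range ψ) := by
    rw [hgen]; exact IntermediateField.mem_top
  rw [IntermediateField.mem_adjoin_range_iff] at hx
  obtain ⟨r, s, h⟩ := hx
  by_cases hs : aeval ψ s = 0
  · refine ⟨0, 1, by simp, ?_⟩
    rw [h, hs]
    simp
  · exact ⟨r, s, hs, h⟩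

theorem ultra_eq {L : Type} [Field L] [Algebra Qb L] (ψ : Fin 3 → L) (y : ℕ → Fin 3 → ℂ)
    (h0 : ∀ D : MvPolynomial (Fin 3) Qb, aeval ψ D = 0 → ∀ m, (aeval (y m) D : ℂ) = 0)
    (h1 : ∀ D : MvPolynomial (Fin 3) Qb, aeval ψ D ≠ 0 → ∀ᶠ m in atTop, (aeval (y m) D : ℂ) ≠ 0)
    (N D N' D' : MvPolynomial (Fin 3) Qb) (hD : aeval ψ D ≠ 0) (hD' : aeval ψ D' ≠ 0)
    (h : aeval ψ N / aeval ψ D = aeval ψ N' / aeval ψ D') :
    ∀ᶠ m in atTop, (aeval (y m) N / aeval (y m) D : ℂ) = aeval (y m) N' / aeval (y m) D' := by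
  have hz : aeval ψ (N * D' - N' * D) = 0 := by
    rw [div_eq_div_iff hD hD'] at h
    rw [map_sub, map_mul, map_mul, h, sub_self]
  filter_upwards [h1 D hD, h1 D' hD'] with m hm hm'
  have := h0 _ hz m
  rw [map_sub, map_mul, map_mul, sub_eq_zero] at this
  rw [div_eq_div_iff hm hm']
  exact this

/-- the values of a function at the points of the sequence -/
theorem exists_val {L : Type} [Field L] [Algebra Qb L] (ψ : Fin 3 → L)
    (hgen : IntermediateField.adjoin Qb (Set.range ψ) = ⊤) (y : ℕ → Fin 3 → ℂ)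
    (h0 : ∀ D : MvPolynomial (Fin 3) Qb, aeval ψ D = 0 → ∀ m, (aeval (y m) D : ℂ) = 0)
    (h1 : ∀ D : MvPolynomial (Fin 3) Qb, aeval ψ D ≠ 0 → ∀ᶠ m in atTop, (aeval (y m) D : ℂ) ≠ 0) :
    ∃ v : L → ℕ → ℂ,
      (∀ N D : MvPolynomial (Fin 3) Qb, aeval ψ D ≠ 0 →
        ∀ᶠ m in atTop, v (aeval ψ N / aeval ψ D) m = aeval (y m) N / aeval (y m) D) ∧
      (∀ a b, ∀ᶠ m in atTop, v (a + b) m = v a m + v b m) ∧
      (∀ a b, ∀ᶠ m in atTop, v (a * b) m = v a m * v b m) ∧
      (∀ c : Qb, ∀ᶠ m in atTop, v (algebraMap Qb L c) m = (c : ℂ)) := by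
  choose N D hD hx using fun x => ultra_rep ψ hgen x
  have key : ∀ N' D' : MvPolynomial (Fin 3) Qb, aeval ψ D' ≠ 0 → ∀ x : L,
      x = aeval ψ N' / aeval ψ D' →
      ∀ᶠ m in atTop, (aeval (y m) (N x) / aeval (y m) (D x) : ℂ) =
        aeval (y m) N' / aeval (y m) D' := by
    intro N' D' hD' x hx'
    exact ultra_eq ψ y h0 h1 _ _ _ _ (hD x) hD' (by rw [← hx x, hx'])
  refine ⟨fun x m => aeval (y m) (N x) / aeval (y m) (D x), ?_, ?_, ?_, ?_⟩
  · intro N' D' hD'
    exact key N' D' hD' _ rfl
  · intro a b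
    have h := key (N a * D b + N b * D a) (D a * D b)
      (by rw [map_mul]; exact mul_ne_zero (hD a) (hD b)) (a + b) (by
        conv_lhs => rw [hx a, hx b]
        rw [div_add_div _ _ (hD a) (hD b), map_add, map_mul, map_mul, map_mul]
        ring_nf)
    filter_upwards [h, h1 _ (hD a), h1 _ (hD b)] with m hm ha hb
    rw [hm, div_add_div _ _ ha hb, map_add, map_mul, map_mul, map_mul]
    ring_nf
  · intro a b
    have h := key (N a * N b) (D a * D b)
      (by rw [map_mul]; exact mul_ne_zero (hD a) (hD b)) (a * b) (by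
        conv_lhs => rw [hx a, hx b]
        rw [div_mul_div_comm, map_mul, map_mul])
    filter_upwards [h] with m hm
    rw [hm, div_mul_div_comm, map_mul, map_mul]
  · intro c
    have h := key (C c) 1 (by simp) (algebraMap Qb L c) (by simp)
    filter_upwards [h] with m hm
    rw [hm]
    simp

theorem exists_ultra {L : Type} [Field L] [Algebra Qb L] (ψ : Fin 3 → L)
    (hgen : IntermediateField.adjoin Qb (Set.range ψ) = ⊤) (y : ℕ → Fin 3 → ℂ)
    (h0 : ∀ D : MvPolynomial (Fin 3) Qb, aeval ψ D = 0 → ∀ m, (aeval (y m) D : ℂ) = 0)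
    (h1 : ∀ D : MvPolynomial (Fin 3) Qb, aeval ψ D ≠ 0 → ∀ᶠ m in atTop, (aeval (y m) D : ℂ) ≠ 0) :
    ∃ O : ValuationSubring L, Over Qb O ∧
      (∀ N D : MvPolynomial (Fin 3) Qb, aeval ψ D ≠ 0 →
        Tendsto (fun m => (aeval (y m) N / aeval (y m) D : ℂ)) atTop (𝓝 0) →
        O.valuation (aeval ψ N / aeval ψ D) < 1) ∧
      ∀ N D : MvPolynomial (Fin 3) Qb, aeval ψ D ≠ 0 →
        Tendsto (fun m => ‖(aeval (y m) N / aeval (y m) D : ℂ)‖) atTop atTop →
        aeval ψ N / aeval ψ D ∉ O := by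
  obtain ⟨v, hv, hadd, hmul, hc⟩ := exists_val ψ hgen y h0 h1
  set U : Ultrafilter ℕ := hyperfilter ℕ with hU
  have hle : (U : Filter ℕ) ≤ atTop := by
    rw [hU, ← Nat.cofinite_eq_atTop]
    exact hyperfilter_le_cofinite
  have ev : ∀ {p : ℕ → Prop}, (∀ᶠ m in atTop, p m) → ∀ᶠ m in (U : Filter ℕ), p m :=
    fun h => hle h
  have hone : ∀ᶠ m in atTop, v 1 m = 1 := by
    have := hc 1
    rw [map_one] at this
    filter_upwards [this] with m hm
    rw [hm]; rfl
  have hzero : ∀ᶠ m in atTop, v 0 m = 0 := by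
    have := hc 0
    rw [map_zero] at this
    filter_upwards [this] with m hm
    rw [hm]; rfl
  have hneg : ∀ a, ∀ᶠ m in atTop, v (-a) m = -v a m := by
    intro a
    have := hadd (-a) a
    rw [neg_add_cancel] at this
    filter_upwards [this, hzero] with m hm h0
    rw [h0] at hm
    exact eq_neg_of_add_eq_zero_left hm.symm
  have hinv : ∀ a, a ≠ 0 → ∀ᶠ m in atTop, v a m * v a⁻¹ m = 1 := by
    intro a ha
    have := hmul a a⁻¹
    rw [mul_inv_cancel₀ ha] at this
    filter_upwards [this, hone] with m hm h0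
    rw [← hm, h0]
  let O : ValuationSubring L :=
    { carrier := {x | ∃ C : ℝ, ∀ᶠ m in (U : Filter ℕ), ‖v x m‖ ≤ C}
      mul_mem' := by
        rintro a b ⟨C, hC⟩ ⟨C', hC'⟩
        refine ⟨C * C', ?_⟩
        filter_upwards [hC, hC', ev (hmul a b)] with m h1 h2 h3
        rw [h3, norm_mul]
        exact mul_le_mul h1 h2 (norm_nonneg _) ((norm_nonneg _).trans h1)
      one_mem' := by
        refine ⟨1, ?_⟩
        filter_upwards [ev hone] with m h
        rw [h, norm_one]
      add_mem' := by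
        rintro a b ⟨C, hC⟩ ⟨C', hC'⟩
        refine ⟨C + C', ?_⟩
        filter_upwards [hC, hC', ev (hadd a b)] with m h1 h2 h3
        rw [h3]
        exact (norm_add_le _ _).trans (add_le_add h1 h2)
      zero_mem' := by
        refine ⟨0, ?_⟩
        filter_upwards [ev hzero] with m h
        rw [h, norm_zero]
      neg_mem' := by
        rintro a ⟨C, hC⟩
        refine ⟨C, ?_⟩
        filter_upwards [hC, ev (hneg a)] with m h1 h2
        rw [h2, norm_neg]
        exact h1
      mem_or_inv_mem' := by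
        intro a
        by_cases ha : a = 0
        · left
          refine ⟨0, ?_⟩
          filter_upwards [ev hzero] with m h
          rw [ha, h, norm_zero]
        · rcases U.em (fun m => ‖v a m‖ ≤ 1) with h | h
          · exact Or.inl ⟨1, h⟩
          · refine Or.inr ⟨1, ?_⟩
            filter_upwards [h, ev (hinv a ha)] with m h1 h2
            have h3 : ‖v a m‖ * ‖v a⁻¹ m‖ = 1 := by rw [← norm_mul, h2, norm_one]
            rw [not_le] at h1
            by_contra h4
            rw [not_le] at h4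
            have : 1 < ‖v a m‖ * ‖v a⁻¹ m‖ := one_lt_mul_of_lt_of_le h1 h4.le
            linarith }
  have hO : ∀ x, x ∈ O ↔ ∃ C : ℝ, ∀ᶠ m in (U : Filter ℕ), ‖v x m‖ ≤ C := fun x => Iff.rfl
  have hinf : ∀ x, Tendsto (fun m => ‖v x m‖) atTop atTop → x ∉ O := by
    intro x hx hxO
    obtain ⟨C, hC⟩ := (hO x).1 hxO
    have h2 := ev (hx.eventually_gt_atTop C)
    obtain ⟨m, h3, h4⟩ := (hC.and h2).exists
    exact absurd h3 (not_le.2 h4)
  refine ⟨O, ?_, ?_, ?_⟩
  · intro c
    rw [hO]
    refine ⟨‖(c : ℂ)‖, ?_⟩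
    filter_upwards [ev (hc c)] with m h
    rw [h]
  · intro N D hD hlim
    set x := aeval ψ N / aeval ψ D with hx
    by_cases hx0 : x = 0
    · rw [hx0, map_zero]
      exact zero_lt_one
    · have hvx : Tendsto (fun m => v x m) atTop (𝓝 0) :=
        hlim.congr' ((hv N D hD).mono fun m hm => hm.symm)
      have hnot : x⁻¹ ∉ O := by
        apply hinf
        have h5 : Tendsto (fun m => ‖v x m‖⁻¹) atTop atTop := by
          apply Tendsto.inv_tendsto_nhdsGT_zero
          rw [tendsto_nhdsWithin_iff]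
          refine ⟨?_, ?_⟩
          · have := hvx.norm
            rwa [norm_zero] at this
          · filter_upwards [hinv x hx0] with m hm
            rw [Set.mem_Ioi, norm_pos_iff]
            intro h
            rw [h, zero_mul] at hm
            exact zero_ne_one hm
        refine h5.congr' ?_
        filter_upwards [hinv x hx0] with m hm
        have h6 : ‖v x m‖ * ‖v x⁻¹ m‖ = 1 := by rw [← norm_mul, hm, norm_one]
        exact inv_eq_of_mul_eq_one_right h6
      rw [← not_le]
      intro hge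
      apply hnot
      rw [← ValuationSubring.valuation_le_one_iff, map_inv₀]
      exact inv_le_one_of_one_le₀ hge
  · intro N D hD hlim
    apply hinf
    refine hlim.congr' ?_
    filter_upwards [hv N D hD] with m hm
    rw [hm]

end Pool.Agent.LGO
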