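import Mathlib
import Pool.Agent.LGO.G.Pole
import Pool.Agent.LGO.G.SetupEx
import Pool.Agent.LGO.G.Ultra
import Pool.Agent.LGO.G.Ineq
import Pool.Agent.LGO.G.FunF

/-!
# LGO, geometry, module G12: a function with its only pole at a given cusp

`geo`.  `L, ψ` from `exists_funQ`.  `ψ a` is transcendental: otherwise it is algebraic over `Qb`, so it is
a constant `c` (`Qb` is algebraically closed) and `x (i a) = c` on `V`, but `‖P m (i a)‖ → ∞`.
`exists_ultra` for `y m = P m ∘ i`: `h0` is clear; `h1`: the set of the `x ∈ V` with `D(x ∘ i) = 0` is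
finite, and `‖P m (i a)‖ → ∞`, so `P m` is not in it for large `m`.  The place `O`: `Over Qb O` and
`ψ a ∉ O` (`N = X a`, `D = 1`).  `exists_setup`: `t, δ, b`; `t ∉ O` because otherwise `ψ a ∈ O` by
`Setup.int`.  So `O ∈ Inf Qb t` and `exists_pole` gives `F0 ∈ Algebra.adjoin Qb (Set.range ψ)`,
`F0 = aeval ψ F` (`Algebra.adjoin_range_eq_range_aeval`).  `F` is not constant on `V` because `F0` is
transcendental: if `F(x ∘ i) = c` on `V` then `c` is algebraic (`V` has a point with algebraic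
coordinates: `exists_Qb_point`, or by `‖..‖`: `F0` and `ψ a` satisfy a relation; simplest: the
`Qb`-points are dense) and `F - C c` vanishes on `V`, so `F0 = c`.
Second part: `N, D` given.  If `aeval ψ N = 0` then `N` vanishes on `V` and the claim is clear.
Otherwise `G = aeval ψ N / aeval ψ D` has `O.valuation G < 1` (`exists_ultra`), `exists_cert` and
`ineq_of_cert`.
-/

namespace Pool.Agent.LGO

open MvPolynomial Filter Topology Pool.Agent.Hhelper14.ZPL

/-- an element algebraic over the algebraically closed field `Qb` is a constant -/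
theorem const_of_isAlgebraic {L : Type} [Field L] [Algebra Qb L] {z : L}
    (hz : IsAlgebraic Qb z) : ∃ c : Qb, algebraMap Qb L c = z := by
  have h1 : IsIntegral Qb z := hz.isIntegral
  have h2 := minpoly.irreducible h1
  have h3 := IsAlgClosed.degree_eq_one_of_irreducible Qb h2
  obtain ⟨c, hc⟩ := minpoly.mem_range_of_degree_eq_one Qb z h3
  exact ⟨c, hc⟩

/-- a finite set contains only finitely many terms of a sequence tending to infinity -/
theorem eventually_notMem_finite {n : ℕ} {S : Set (Fin n → ℂ)} (hS : S.Finite) (j : Fin n)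
    (P : ℕ → Fin n → ℂ) (ha : Tendsto (fun m => ‖P m j‖) atTop atTop) :
    ∀ᶠ m in atTop, P m ∉ S := by
  have h1 : ∀ x ∈ S, ∀ᶠ m in atTop, P m ≠ x := by
    intro x _
    filter_upwards [ha.eventually_gt_atTop ‖x j‖] with m hm hx
    rw [hx] at hm
    exact lt_irrefl _ hm
  have h2 : ∀ᶠ m in atTop, ∀ x ∈ S, P m ≠ x := (eventually_all_finite hS).mpr h1
  filter_upwards [h2] with m hm hmem
  exact hm _ hmem rfl

theorem geo {n : ℕ} {V : Set (Fin n → ℂ)} (hV : Pool.Agent.Hhelper14.ZPL.IsIrredClosed V)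
    (hVk : KClosed V) (hdim : Pool.Agent.Hhelper14.ZPL.dim V = 1) (i : Fin 3 → Fin n)
    (P : ℕ → Fin n → ℂ) (hP : ∀ m, P m ∈ V) (a : Fin 3)
    (ha : Tendsto (fun m => ‖P m (i a)‖) atTop atTop) :
    ∃ F : MvPolynomial (Fin 3) Qb, (∀ c : ℂ, ∃ x ∈ V, (aeval (x ∘ i) F : ℂ) ≠ c) ∧
      ∀ N D : MvPolynomial (Fin 3) Qb, (∃ x ∈ V, (aeval (x ∘ i) D : ℂ) ≠ 0) →
        Tendsto (fun m => (aeval (P m ∘ i) N / aeval (P m ∘ i) D : ℂ)) atTop (𝓝 0) →
        ∃ (C : ℝ) (m : ℕ), 0 < C ∧ 0 < m ∧ ∀ (σ : ℂ ≃+* ℂ), ∀ x ∈ V,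
          C ≤ ‖σ (aeval (x ∘ i) F : ℂ)‖ →
          ‖σ (aeval (x ∘ i) N : ℂ)‖ ^ m * ‖σ (aeval (x ∘ i) F : ℂ)‖ ≤
            C * ‖σ (aeval (x ∘ i) D : ℂ)‖ ^ m := by
  obtain ⟨L, hL, hA, ψ, hgen, hdep, h0, hfin⟩ := exists_funQ hV hVk hdim i
  -- `ψ a` is transcendental
  have htr : Transcendental Qb (ψ a) := by
    intro halg
    obtain ⟨c, hc⟩ := const_of_isAlgebraic halg
    have h1 : aeval ψ (X a - C c : MvPolynomial (Fin 3) Qb) = 0 := by
      rw [map_sub, aeval_X, aeval_C, hc, sub_self]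
    have h2 : ∀ m, P m (i a) = (c : ℂ) := by
      intro m
      have h3 := (h0 _).mp h1 (P m) (hP m)
      rw [map_sub, aeval_X, aeval_C, sub_eq_zero] at h3
      exact h3
    have h4 : ∀ᶠ m in atTop, ‖(c : ℂ)‖ < ‖P m (i a)‖ := ha.eventually_gt_atTop _
    obtain ⟨m, hm⟩ := h4.exists
    rw [h2 m] at hm
    exact lt_irrefl _ hm
  -- the place
  obtain ⟨O, hOver, hlt, hnot⟩ := exists_ultra ψ hgen (fun m => P m ∘ i)
    (fun D hD m => (h0 D).mp hD (P m) (hP m))
    (fun D hD => by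
      filter_upwards [eventually_notMem_finite (hfin D hD) (i a) P ha] with m hm h5
      exact hm ⟨hP m, h5⟩)
  have haO : ψ a ∉ O := by
    have h1 := hnot (X a) 1 (by rw [map_one]; exact one_ne_zero) (by
      simpa only [aeval_X, map_one, div_one, Function.comp_apply] using ha)
    rwa [aeval_X, map_one, div_one] at h1
  obtain ⟨t, δ, b, hS⟩ := exists_setup hdep ψ hgen htr
  have htO : t ∉ O := by
    intro ht
    exact haO (hS.int (ψ a) (Algebra.subset_adjoin ⟨a, rfl⟩) O hOver ht)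
  obtain ⟨F0, hF0A, hF0t, hF0O, huniq⟩ := exists_pole hdep hS (O := O) ⟨hOver, htO⟩
  rw [Algebra.adjoin_range_eq_range_aeval] at hF0A
  obtain ⟨F, hF⟩ := hF0A
  have hF' : aeval ψ F = F0 := hF
  refine ⟨F, ?_, ?_⟩
  · intro c
    by_contra hcon
    push Not at hcon
    -- a point with algebraic coordinates
    have h1 : (1 : MvPolynomial (Fin n) Qb) ∉
        (vanishingIdeal Qb V : Ideal (MvPolynomial (Fin n) Qb)) := by
      intro h2
      have h3 := (mem_vanishingIdeal_iff.mp h2) (P 0) (hP 0)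
      rw [map_one] at h3
      exact one_ne_zero h3
    obtain ⟨z, hz, -⟩ := exists_Qb_point hVk h1
    have h4 : c = ((aeval (z ∘ i) F : Qb) : ℂ) := by
      rw [← hcon _ hz, ← aeval_coe]
      rfl
    have h5 : aeval ψ (F - C (aeval (z ∘ i) F : Qb) : MvPolynomial (Fin 3) Qb) = 0 := by
      rw [h0]
      intro x hx
      rw [map_sub, hcon x hx, aeval_C, h4]
      exact sub_self _
    rw [map_sub, aeval_C, sub_eq_zero, hF'] at h5
    apply hF0t
    rw [h5]
    exact isAlgebraic_algebraMap _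
  · intro N D hD hND
    have hD0 : aeval ψ D ≠ 0 := by
      intro h1
      obtain ⟨x, hx, hxD⟩ := hD
      exact hxD ((h0 D).mp h1 x hx)
    by_cases hN0 : aeval ψ N = 0
    · refine ⟨1, 1, one_pos, one_pos, ?_⟩
      intro σ x hx _
      rw [(h0 N).mp hN0 x hx, map_zero, norm_zero, pow_one, zero_mul, one_mul, pow_one]
      exact norm_nonneg _
    · obtain ⟨m, hm, hcert⟩ := exists_cert hdep hOver hF0O huniq (hlt N D hD0 hND)
      have hc := hcert (div_ne_zero hN0 hD0)
      rw [← hF'] at hc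
      obtain ⟨C, hC, hineq⟩ := ineq_of_cert ψ F N D m hD0 hc
      exact ⟨C, m, hC, hm, fun σ x hx hle =>
        hineq σ (x ∘ i) (fun G hG => (h0 G).mp hG x hx) hle⟩

end Pool.Agent.LGO
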