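import Mathlib
import Pool.Agent.LGO.G.FunF

/-!
# LGO, geometry, module G13: algebraic relations between the coordinates and a function

* `exists_rel`: `L, ψ` from `exists_funQ`; `Dep Qb L` for `t = aeval ψ F`, `x = ψ a` gives `R ≠ 0` with
  `ev2 t x R = 0`, that is `∑_j R_j(F) X_a^j = 0` on `V` (`Polynomial.eval₂_eq_sum_range`; each
  `Polynomial.aeval (aeval ψ F) (R.coeff j)` is `aeval ψ` of the polynomial `Polynomial.aeval F (R.coeff j)`).
  If `R.natDegree = 0` then `R_0(F) = 0` on `V` with `R_0 ≠ 0`: but `F` takes infinitely many values on `V`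
  or: it is constant on `V` because `V` is irreducible (a product of `F - c_j` vanishes on `V`, so one
  factor does), contradiction to `hF`.  Finiteness: `G = Polynomial.aeval F R.leadingCoeff` does not
  vanish on `V` by the same argument, so its zeros on `V` are finitely many.
* `limit_algebraic`: the relation between `x (i a)` (as `t`) and `x (i c)`: exchange the roles:
  `∑_j R_j(x_c) x_a^j = 0` on `V` with `R_D ≠ 0`, `D = natDegree R`.  Divide by `x_a^D`, `x_a = P m (i a) → ∞`,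
  `x_c → γ`: `R_D(γ) = 0`, so `γ` is algebraic (if `D = 0` then `R_0(x_c) = 0` on `V` and `R_0(γ) = 0` too).
* `finite_zero`: the zeros on `V` of a polynomial in the three coordinates which does not vanish on `V`.
-/

namespace Pool.Agent.LGO

open MvPolynomial Filter Topology Pool.Agent.Hhelper14.ZPL

variable {n : ℕ} {V : Set (Fin n → ℂ)}

/-- the relation as a polynomial in three variables -/
private theorem RelF_ev2 {L : Type} [Field L] [Algebra Qb L] (ψ : Fin 3 → L)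
    (F : MvPolynomial (Fin 3) Qb) (a : Fin 3) (R : Polynomial (Polynomial Qb)) :
    ev2 (aeval ψ F) (ψ a) R = aeval ψ (∑ j ∈ Finset.range (R.natDegree + 1),
      Polynomial.aeval F (R.coeff j) * X a ^ j) := by
  unfold ev2
  rw [Polynomial.eval₂_eq_sum_range, map_sum]
  refine Finset.sum_congr rfl fun j _ => ?_
  rw [map_mul, map_pow, aeval_X]
  congr 1
  change Polynomial.aeval (aeval ψ F) (R.coeff j) = _
  rw [Polynomial.aeval_algHom_apply]

/-- the values of the relation on `V` -/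
private theorem RelF_val (y : Fin 3 → ℂ) (F : MvPolynomial (Fin 3) Qb) (a : Fin 3)
    (R : Polynomial (Polynomial Qb)) :
    (aeval y (∑ j ∈ Finset.range (R.natDegree + 1),
      Polynomial.aeval F (R.coeff j) * X a ^ j : MvPolynomial (Fin 3) Qb) : ℂ) =
      ∑ j ∈ Finset.range (R.natDegree + 1),
        (Polynomial.aeval (aeval y F : ℂ) (R.coeff j) : ℂ) * y a ^ j := by
  rw [map_sum]
  refine Finset.sum_congr rfl fun j _ => ?_
  rw [map_mul, map_pow, aeval_X, Polynomial.aeval_algHom_apply]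

/-- a nonconstant function is transcendental -/
private theorem RelF_trans {L : Type} [Field L] [Algebra Qb L] (ψ : Fin 3 → L)
    (i : Fin 3 → Fin n)
    (h0 : ∀ G : MvPolynomial (Fin 3) Qb, aeval ψ G = 0 ↔ ∀ x ∈ V, (aeval (x ∘ i) G : ℂ) = 0)
    {F : MvPolynomial (Fin 3) Qb} (hF : ∀ c : ℂ, ∃ x ∈ V, (aeval (x ∘ i) F : ℂ) ≠ c)
    {q : Polynomial Qb} (hq : q ≠ 0) : Polynomial.aeval (aeval ψ F : L) q ≠ 0 := by
  intro h
  have hint : IsIntegral Qb (aeval ψ F : L) := IsAlgebraic.isIntegral ⟨q, hq, h⟩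
  have h1 : (minpoly Qb (aeval ψ F : L)).degree = 1 :=
    IsAlgClosed.degree_eq_one_of_irreducible Qb (minpoly.irreducible hint)
  obtain ⟨c, hc⟩ := minpoly.mem_range_of_degree_eq_one Qb (aeval ψ F : L) h1
  have h2 : aeval ψ (F - C c) = 0 := by
    rw [map_sub, aeval_C, hc, sub_self]
  obtain ⟨x, hx, hne⟩ := hF (algebraMap Qb ℂ c)
  have h3 := (h0 _).1 h2 x hx
  rw [map_sub, aeval_C] at h3
  exact hne (sub_eq_zero.1 h3)

theorem exists_rel (hV : Pool.Agent.Hhelper14.ZPL.IsIrredClosed V) (hVk : KClosed V)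
    (hdim : Pool.Agent.Hhelper14.ZPL.dim V = 1) (i : Fin 3 → Fin n) {F : MvPolynomial (Fin 3) Qb}
    (hF : ∀ c : ℂ, ∃ x ∈ V, (aeval (x ∘ i) F : ℂ) ≠ c) (a : Fin 3) :
    ∃ R : Polynomial (Polynomial Qb), 0 < R.natDegree ∧
      (∀ x ∈ V, ∑ j ∈ Finset.range (R.natDegree + 1),
        (Polynomial.aeval (aeval (x ∘ i) F : ℂ) (R.coeff j) : ℂ) * x (i a) ^ j = 0) ∧
      {x ∈ V | (Polynomial.aeval (aeval (x ∘ i) F : ℂ) R.leadingCoeff : ℂ) = 0}.Finite := by
  obtain ⟨L, hL, hLQ, ψ, -, hdep, h0, hfin⟩ := exists_funQ hV hVk hdim i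
  obtain ⟨R, hR, hR0⟩ := hdep (aeval ψ F) (ψ a)
  have hlc : R.leadingCoeff ≠ 0 := Polynomial.leadingCoeff_ne_zero.2 hR
  refine ⟨R, ?_, ?_, ?_⟩
  · rw [Nat.pos_iff_ne_zero]
    intro hd
    rw [RelF_ev2, hd] at hR0
    simp only [zero_add, Finset.range_one, Finset.sum_singleton, pow_zero, mul_one] at hR0
    rw [← Polynomial.aeval_algHom_apply] at hR0
    refine RelF_trans ψ i h0 hF (q := R.coeff 0) ?_ hR0
    rw [Polynomial.leadingCoeff, hd] at hlc
    exact hlc
  · intro x hx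
    rw [RelF_ev2, h0] at hR0
    have h1 := hR0 x hx
    rw [RelF_val] at h1
    exact h1
  · have h2 := RelF_trans ψ i h0 hF hlc
    rw [Polynomial.aeval_algHom_apply] at h2
    have h3 := hfin _ h2
    refine h3.subset ?_
    rintro x ⟨hx, hx0⟩
    refine ⟨hx, ?_⟩
    rw [← Polynomial.aeval_algHom_apply]
    exact hx0

theorem limit_algebraic (hV : Pool.Agent.Hhelper14.ZPL.IsIrredClosed V) (hVk : KClosed V)
    (hdim : Pool.Agent.Hhelper14.ZPL.dim V = 1) (i : Fin 3 → Fin n) (P : ℕ → Fin n → ℂ)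
    (hP : ∀ m, P m ∈ V) (a c : Fin 3) (ha : Tendsto (fun m => ‖P m (i a)‖) atTop atTop) {γ : ℂ}
    (hc : Tendsto (fun m => P m (i c)) atTop (𝓝 γ)) : IsAlgebraic ℚ γ := by
  obtain ⟨L, hL, hLQ, ψ, -, hdep, h0, hfin⟩ := exists_funQ hV hVk hdim i
  obtain ⟨R, hR, hR0⟩ := hdep (ψ c) (ψ a)
  have hlc : R.leadingCoeff ≠ 0 := Polynomial.leadingCoeff_ne_zero.2 hR
  have hX : (aeval ψ (X c : MvPolynomial (Fin 3) Qb) : L) = ψ c := aeval_X _ _
  rw [← hX, RelF_ev2, h0] at hR0
  have hrel : ∀ m, ∑ j ∈ Finset.range (R.natDegree + 1),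
      (Polynomial.aeval (P m (i c)) (R.coeff j) : ℂ) * P m (i a) ^ j = 0 := by
    intro m
    have h1 := hR0 (P m) (hP m)
    rw [RelF_val] at h1
    simpa only [aeval_X, Function.comp_apply] using h1
  set D := R.natDegree with hD
  have hinv : Tendsto (fun m => (P m (i a))⁻¹) atTop (𝓝 0) :=
    tendsto_inv₀_cobounded.comp (tendsto_norm_atTop_iff_cobounded.1 ha)
  have hcoef : ∀ j, Tendsto (fun m => (Polynomial.aeval (P m (i c)) (R.coeff j) : ℂ)) atTop
      (𝓝 (Polynomial.aeval γ (R.coeff j))) := by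
    intro j
    exact ((R.coeff j).continuous_aeval.tendsto γ).comp hc
  have hsum : Tendsto (fun m => ∑ j ∈ Finset.range D,
      (Polynomial.aeval (P m (i c)) (R.coeff j) : ℂ) * ((P m (i a))⁻¹) ^ (D - j)) atTop (𝓝 0) := by
    have h2 : (0 : ℂ) = ∑ j ∈ Finset.range D,
        (Polynomial.aeval γ (R.coeff j) : ℂ) * 0 ^ (D - j) := by
      refine (Finset.sum_eq_zero fun j hj => ?_).symm
      have : D - j ≠ 0 := Nat.sub_ne_zero_of_lt (Finset.mem_range.1 hj)
      rw [zero_pow this, mul_zero]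
    rw [h2]
    exact tendsto_finsetSum _ fun j _ => (hcoef j).mul (hinv.pow _)
  have hev : ∀ᶠ m in atTop, ∑ j ∈ Finset.range D,
      (Polynomial.aeval (P m (i c)) (R.coeff j) : ℂ) * ((P m (i a))⁻¹) ^ (D - j) =
      -(Polynomial.aeval (P m (i c)) (R.coeff D) : ℂ) := by
    filter_upwards [ha.eventually_gt_atTop 0] with m hm
    have hne : P m (i a) ≠ 0 := norm_pos_iff.1 hm
    have h3 := hrel m
    rw [Finset.sum_range_succ] at h3
    have h4 : ∀ j ∈ Finset.range D, (Polynomial.aeval (P m (i c)) (R.coeff j) : ℂ) *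
        ((P m (i a))⁻¹) ^ (D - j) =
        (Polynomial.aeval (P m (i c)) (R.coeff j) : ℂ) * P m (i a) ^ j * ((P m (i a))⁻¹) ^ D := by
      intro j hj
      have hj' : j ≤ D := (Finset.mem_range.1 hj).le
      have h5 : ((P m (i a))⁻¹) ^ D = ((P m (i a))⁻¹) ^ j * ((P m (i a))⁻¹) ^ (D - j) := by
        rw [← pow_add, Nat.add_sub_cancel' hj']
      rw [h5]
      have h6 : P m (i a) ^ j * ((P m (i a))⁻¹) ^ j = 1 := by
        rw [← mul_pow, mul_inv_cancel₀ hne, one_pow]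
      calc (Polynomial.aeval (P m (i c)) (R.coeff j) : ℂ) * ((P m (i a))⁻¹) ^ (D - j)
          = (Polynomial.aeval (P m (i c)) (R.coeff j) : ℂ) *
            (P m (i a) ^ j * ((P m (i a))⁻¹) ^ j) * ((P m (i a))⁻¹) ^ (D - j) := by
            rw [h6, mul_one]
        _ = _ := by ring
    rw [Finset.sum_congr rfl h4, ← Finset.sum_mul, eq_neg_of_add_eq_zero_left h3, neg_mul,
      mul_assoc, ← mul_pow, mul_inv_cancel₀ hne, one_pow, mul_one]
  have hlim : (Polynomial.aeval γ (R.coeff D) : ℂ) = 0 := by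
    have h7 : Tendsto (fun m => ∑ j ∈ Finset.range D,
        (Polynomial.aeval (P m (i c)) (R.coeff j) : ℂ) * ((P m (i a))⁻¹) ^ (D - j)) atTop
        (𝓝 (-(Polynomial.aeval γ (R.coeff D) : ℂ))) :=
      ((hcoef D).neg).congr' (hev.mono fun m hm => hm.symm)
    have h8 := tendsto_nhds_unique hsum h7
    exact neg_eq_zero.1 h8.symm
  have halg : IsAlgebraic Qb γ := ⟨R.coeff D, hlc, hlim⟩
  haveI : Algebra.IsAlgebraic ℚ Qb := algebraicClosure.isAlgebraic ℚ ℂ
  exact halg.restrictScalars ℚ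

theorem finite_zero (hV : Pool.Agent.Hhelper14.ZPL.IsIrredClosed V) (hVk : KClosed V)
    (hdim : Pool.Agent.Hhelper14.ZPL.dim V = 1) (i : Fin 3 → Fin n) {G : MvPolynomial (Fin 3) Qb}
    (hG : ∃ x ∈ V, (aeval (x ∘ i) G : ℂ) ≠ 0) : {x ∈ V | (aeval (x ∘ i) G : ℂ) = 0}.Finite := by
  obtain ⟨L, hL, hLQ, ψ, -, hdep, h0, hfin⟩ := exists_funQ hV hVk hdim i
  refine hfin G ?_
  intro h
  obtain ⟨x, hx, hne⟩ := hG
  exact hne ((h0 G).1 h x hx)

end Pool.Agent.LGO
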